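import Pool.Agent.MP_b00c97_gt.Lav.Defs2

/-!
# MP_b00c97_gt: random window systems and random topological groups

These are the names, seen from the space `Ult B` of the ultrafilters, for window systems and for
topological groups with a winning strategy of player I. `Γ` is the group of the names of the
elements of the group, `Z ω` is the set of the names whose value at `ω` is the neutral element.
-/

set_option autoImplicit false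

open Set MeasureTheory Filter

namespace Pool.Agent.MP_b00c97_gt.RN

open Pool.Agent.BVM Pool.Agent.MP9096b7

universe u v

variable {B : Type} [CompleteBooleanAlgebra B]

/-- `P` holds for almost all `ω` in `c`. -/
def AE (c : B) (P : Ult B → Prop) : Prop := ∀ᶠ ω in genN B, ω.V c → P ω

theorem AE.mono {c : B} {P Q : Ult B → Prop} (h : AE c P) (hPQ : ∀ ω, ω.V c → P ω → Q ω) :
    AE c Q := Eventually.mono h fun ω h1 h2 => hPQ ω h2 (h1 h2)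

theorem AE.and {c : B} {P Q : Ult B → Prop} (h : AE c P) (h' : AE c Q) :
    AE c fun ω => P ω ∧ Q ω := by
  filter_upwards [h, h'] with ω h1 h2 h3 using ⟨h1 h3, h2 h3⟩

theorem AE.mp {c : B} {P Q : Ult B → Prop} (h : AE c P) (h' : AE c fun ω => P ω → Q ω) :
    AE c Q := by
  filter_upwards [h, h'] with ω h1 h2 h3 using h2 h3 (h1 h3)

theorem AE.all {c : B} {ι : Type*} [Countable ι] {P : ι → Ult B → Prop} (h : ∀ i, AE c (P i)) :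
    AE c fun ω => ∀ i, P i ω := by
  filter_upwards [eventually_countable_forall.2 h] with ω h1 h2 i using h1 i h2

theorem AE.of_forall {c : B} {P : Ult B → Prop} (h : ∀ ω, ω.V c → P ω) : AE c P :=
  Eventually.of_forall h

theorem AE.of_ae {c : B} {P : Ult B → Prop} (h : ∀ᶠ ω in genN B, P ω) : AE c P :=
  h.mono fun _ h1 _ => h1

theorem AE.restrict {c c' : B} (hc : c' ≤ c) {P : Ult B → Prop} (h : AE c P) : AE c' P :=
  Eventually.mono h fun ω h1 h2 => h1 (ω.mono hc h2)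

theorem AE.exists {c : B} (hc : c ≠ ⊥) {P : Ult B → Prop} (h : AE c P) : ∃ ω, ω.V c ∧ P ω := by
  obtain ⟨ω, h1, h2⟩ := gen_exists h hc
  exact ⟨ω, h2, h1 h2⟩

/-- A name for a real. -/
def IsR (F : Ult B → ℕ → ℕ) : Prop := Measurable[genM B] F

/-- All the sets coded by `s` are infinite. -/
def InfS (s : ℕ → ℕ) : Prop := ∀ i, {n | s (Nat.pair i n) = 0}.Infinite

/-- A random window system (on the event `c`) on the group `Γ`. -/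
structure RSys (B : Type) [CompleteBooleanAlgebra B] (c : B) (Γ : Type u) [Group Γ] where
  /-- the elements whose value at `ω` is the neutral element -/
  Z : Ult B → Subgroup Γ
  /-- the neighbourhoods -/
  V : Ult B → ℕ → Set Γ
  /-- the finite sets -/
  E : Ult B → ℕ → Finset Γ
  /-- a countable set containing the finite sets -/
  D : Set Γ
  D_ctbl : D.Countable
  E_sub : ∀ ω i, ∀ d ∈ E ω i, d ∈ D
  meas_V : ∀ g i, MeasurableSet[genM B] {ω | g ∈ V ω i}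
  meas_E : ∀ g i, MeasurableSet[genM B] {ω | g ∈ E ω i}
  Z_conj : ∀ ω, ω.V c → ∀ z ∈ Z ω, ∀ g, g⁻¹ * z * g ∈ Z ω
  V_Z : ∀ ω, ω.V c → ∀ i, ∀ v ∈ V ω i, ∀ z ∈ Z ω, v * z ∈ V ω i
  one_V : ∀ ω, ω.V c → ∀ i, (1 : Γ) ∈ V ω i
  inv_V : ∀ ω, ω.V c → ∀ i, ∀ v ∈ V ω i, v⁻¹ ∈ V ω i
  mul_V : ∀ ω, ω.V c → ∀ i, ∀ v ∈ V ω (i + 1), ∀ w ∈ V ω (i + 1), v * w ∈ V ω i
  one_E : ∀ ω, ω.V c → ∀ i, (1 : Γ) ∈ E ω i
  inv_E : ∀ ω, ω.V c → ∀ i, ∀ d ∈ E ω i, d⁻¹ ∈ E ω i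
  mul_E : ∀ ω, ω.V c → ∀ i, ∀ a ∈ E ω i, ∀ d ∈ E ω i, a * d ∈ E ω (i + 1)
  conj : ∀ ω, ω.V c → ∀ i, ∀ d ∈ E ω i, ∀ v ∈ V ω (i + 1), d⁻¹ * v * d ∈ V ω i
  small : ∀ g : Γ, AE c fun ω => ∃ᶠ i in atTop, ∃ d ∈ E ω (i + 1), d⁻¹ * g ∈ V ω i
  big : ∀ J : Ult B → ℕ → ℕ, IsR J → (∀ ω, StrictMono (J ω)) →
    ∃ z : Γ, AE c fun ω => ∀ k, ¬ ∃ d ∈ E ω (J ω (k + 1)), d⁻¹ * z ∈ V ω (J ω k + 1)
  mix : ∀ (ι : Type) (b : ι → B) (g : ι → Γ), Pairwise (fun i j => Disjoint (b i) (b j)) →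
    ∃ g' : Γ, ∀ i ω, ω.V (b i) → ω.V c → (g i)⁻¹ * g' ∈ Z ω

namespace RSys

variable {c : B} {Γ : Type u} [Group Γ] (S : RSys B c Γ)

/-- `g ∈ E k * V m` at `ω`. -/
def In (ω : Ult B) (g : Γ) (k m : ℕ) : Prop := ∃ d ∈ S.E ω k, d⁻¹ * g ∈ S.V ω m

/-- Two-sided systems. -/
def TwoSided : Prop :=
  ∀ v : Γ, AE c fun ω => ∀ᶠ i in atTop, ∀ κ, i + 2 ≤ κ → S.In ω v⁻¹ κ (i + 2) →
    ∃ m, i ≤ m + 1 ∧ m ≤ κ ∧ S.In ω v (m + 2) (m - 1)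

/-- `a` is a bad window for `v` with respect to `g` at `ω`. -/
def Bad (ω : Ult B) (g : ℕ → ℕ) (v : Γ) (a : ℕ) : Prop :=
  ∃ k, a + 2 ≤ k ∧ S.In ω v⁻¹ k (a + 2) ∧ ∀ n, a ≤ n + 1 → n ≤ k → ¬ S.In ω v (g n) (n - 2)

/-- The relation of step 3 (see `WSys.stepFam`), at `ω`. -/
def StepRel (ω : Ult B) (x A J : ℕ → ℕ) (z : Γ) : Prop :=
  {a | A a = 0}.Infinite ∧ StrictMono J ∧ (∀ k, J k + 30 ≤ J (k + 1)) ∧
    (∀ k, ¬ S.In ω z (J (k + 1)) (J k + 1)) ∧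
    (∀ a, A a = 0 → ∃ k e, J k + 20 < a ∧ a + 20 < e ∧ e ≤ J (k + 1) ∧
      J (k + 1) = Encodable.encode ((List.range e).map x) ∧
        S.In ω z (J (k + 1) + 1) (J (k + 1))) ∧
    (∀ a a', A a = 0 → A a' = 0 → a < a' → ∃ s : ℕ → ℕ, StrictMono s ∧ a < s 0 ∧ s 5 < a' ∧
      ∀ i < 6, S.In ω z (s i + 1) (s i))

end RSys

/-- The list of the first `n` moves of player II: the `i`-th move is `{d i j : j < k i}`. -/
def hist {Γ : Type u} (d : ℕ → ℕ → Γ) (k : ℕ → ℕ) (n : ℕ) : List (List Γ) :=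
  (List.range n).map fun i => (List.range (k i)).map (d i)

/-- A random topological group (on the event `c`), `o`-bounded and with a winning strategy for
player I. -/
structure RTG (B : Type) [CompleteBooleanAlgebra B] (c : B) (Γ : Type u) [Group Γ] where
  /-- the elements whose value at `ω` is the neutral element -/
  Z : Ult B → Subgroup Γ
  Z_conj : ∀ ω, ω.V c → ∀ z ∈ Z ω, ∀ g, g⁻¹ * z * g ∈ Z ω
  mix : ∀ (ι : Type) (b : ι → B) (g : ι → Γ), Pairwise (fun i j => Disjoint (b i) (b j)) →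
    ∃ g' : Γ, ∀ i ω, ω.V (b i) → ω.V c → (g i)⁻¹ * g' ∈ Z ω
  /-- the names of the neighbourhoods of the neutral element -/
  N : Type v
  /-- their values -/
  U : N → Ult B → Set Γ
  meas : ∀ n g, MeasurableSet[genM B] {ω | g ∈ U n ω}
  one_U : ∀ n ω, ω.V c → (1 : Γ) ∈ U n ω
  U_Z : ∀ n ω, ω.V c → ∀ v ∈ U n ω, ∀ z ∈ Z ω, v * z ∈ U n ω
  inter_U : ∀ n n', ∃ n'', ∀ ω, ω.V c → U n'' ω ⊆ U n ω ∩ U n' ω
  mul_U : ∀ n, ∃ n', ∀ ω, ω.V c → ∀ a ∈ U n' ω, ∀ b ∈ U n' ω, a * b ∈ U n ω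
  inv_U : ∀ n, ∃ n', ∀ ω, ω.V c → ∀ a ∈ U n' ω, a⁻¹ ∈ U n ω
  conj_U : ∀ n (d : Γ), ∃ n', ∀ ω, ω.V c → ∀ a ∈ U n' ω, d⁻¹ * a * d ∈ U n ω
  obd : ∀ n : ℕ → N, ∃ (d : ℕ → ℕ → Γ) (κ : Ult B → ℕ → ℕ), IsR κ ∧
    ∀ g : Γ, AE c fun ω => ∃ i, ∃ j < κ ω i, (d i j)⁻¹ * g ∈ U (n i) ω
  /-- the strategy -/
  σ : List (List Γ) → N
  win : ∀ (d : ℕ → ℕ → Γ) (κ : Ult B → ℕ → ℕ), IsR κ →
    ∃ g : Γ, AE c fun ω => ∀ n, ∀ j < κ ω n, ¬ (d n j)⁻¹ * g ∈ U (σ (hist d (κ ω) n)) ω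

end Pool.Agent.MP_b00c97_gt.RN
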