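import Pool.Agent.MP_b00c97_gt.RN.Basic

/-!
# MP_b00c97_gt, part RN, block R1: from random topological groups to random window systems
-/

set_option autoImplicit false

open Set MeasureTheory Filter

namespace Pool.Agent.MP_b00c97_gt.RN

open Pool.Agent.BVM Pool.Agent.MP9096b7
open Pool.Agent.MP_b00c97_gt.Lav (meas_sel meas_sel_set meas_all meas_ex meas_and meas_or meas_not
  meas_imp meas_const meas_rel meas_rel1 meas_real meas_ev meas_eq meas_of_eq)

universe u v

namespace BlockR1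

section lists

variable {Γ : Type u} [Group Γ] {N : Type v}

/-- The generators. -/
def gen (C : N → ℕ → Γ) (u : ℕ → N) (k : ℕ) : Γ := C (u (Nat.unpair k).1) (Nat.unpair k).2

/-- All products of two elements of a list. -/
def sq (l : List Γ) : List Γ := l.flatMap fun a => l.map fun b => a * b

theorem mem_sq {l : List Γ} {x : Γ} : x ∈ sq l ↔ ∃ a ∈ l, ∃ b ∈ l, a * b = x := by
  simp [sq]

/-- The finite sets, as lists, each one being an initial segment of the next one. -/
def LL (C : N → ℕ → Γ) (u : ℕ → N) : ℕ → List Γ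
  | 0 => [1]
  | k + 1 => LL C u k ++ sq (LL C u k ++ [gen C u k, (gen C u k)⁻¹])

variable (C : N → ℕ → Γ) (u : ℕ → N)

theorem LL_succ (k : ℕ) :
    LL C u (k + 1) = LL C u k ++ sq (LL C u k ++ [gen C u k, (gen C u k)⁻¹]) := rfl

theorem LL_prefix {j k : ℕ} (h : j ≤ k) : LL C u j <+: LL C u k := by
  induction k, h using Nat.le_induction with
  | base => exact List.prefix_refl _
  | succ k _ ih => exact ih.trans (LL_succ C u k ▸ List.prefix_append _ _)

theorem LL_mono {j k : ℕ} (h : j ≤ k) {d : Γ} (hd : d ∈ LL C u j) : d ∈ LL C u k :=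
  (LL_prefix C u h).subset hd

theorem one_LL (k : ℕ) : (1 : Γ) ∈ LL C u k :=
  LL_mono C u (Nat.zero_le k) (by simp [LL])

theorem gen_mem (k : ℕ) : gen C u k ∈ LL C u (k + 1) := by
  rw [LL_succ, List.mem_append, mem_sq]
  exact Or.inr ⟨gen C u k, by simp, 1, List.mem_append_left _ (one_LL C u k), mul_one _⟩

theorem mul_LL (k : ℕ) {a d : Γ} (ha : a ∈ LL C u k) (hd : d ∈ LL C u k) :
    a * d ∈ LL C u (k + 1) := by
  rw [LL_succ, List.mem_append, mem_sq]
  exact Or.inr ⟨a, List.mem_append_left _ ha, d, List.mem_append_left _ hd, rfl⟩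

theorem inv_LL (k : ℕ) : ∀ d ∈ LL C u k, d⁻¹ ∈ LL C u k := by
  induction k with
  | zero => simp [LL]
  | succ k ih =>
    have hQ : ∀ d ∈ LL C u k ++ [gen C u k, (gen C u k)⁻¹],
        d⁻¹ ∈ LL C u k ++ [gen C u k, (gen C u k)⁻¹] := by
      intro d hd
      rcases List.mem_append.1 hd with hd | hd
      · exact List.mem_append_left _ (ih d hd)
      · apply List.mem_append_right
        simp only [List.mem_cons, List.not_mem_nil, or_false] at hd ⊢
        rcases hd with rfl | rfl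
        · right; rfl
        · left; exact inv_inv _
    intro d hd
    rw [LL_succ, List.mem_append] at hd ⊢
    rcases hd with hd | hd
    · exact Or.inl (ih d hd)
    · rw [mem_sq] at hd ⊢
      obtain ⟨a, ha, b, hb, rfl⟩ := hd
      exact Or.inr ⟨b⁻¹, hQ b hb, a⁻¹, hQ a ha, by group⟩

theorem LL_congr {u u' : ℕ → N} {k : ℕ} (h : ∀ j < k, u j = u' j) : LL C u k = LL C u' k := by
  induction k with
  | zero => rfl
  | succ k ih =>
    have h1 : gen C u k = gen C u' k := by
      unfold gen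
      rw [h _ (lt_of_le_of_lt (Nat.unpair_left_le k) (Nat.lt_succ_self k))]
    rw [LL_succ, LL_succ, h1, ih fun j hj => h j (by omega)]

theorem lt_length (k : ℕ) : k < (LL C u k).length := by
  induction k with
  | zero => simp [LL]
  | succ k ih =>
    have h1 : 0 < (sq (LL C u k ++ [gen C u k, (gen C u k)⁻¹])).length := by
      apply List.length_pos_of_mem (a := (1 : Γ) * 1)
      rw [mem_sq]
      exact ⟨1, List.mem_append_left _ (one_LL C u k), 1, List.mem_append_left _ (one_LL C u k),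
        rfl⟩
    rw [LL_succ, List.length_append]
    omega

/-- The sequence whose initial segments the lists are. -/
def dd (j : ℕ) : Γ := (LL C u j).getD j 1

theorem map_dd (k : ℕ) : (List.range (LL C u k).length).map (dd C u) = LL C u k := by
  apply List.ext_getElem
  · simp
  · intro i h1 h2
    rw [List.getElem_map, List.getElem_range]
    unfold dd
    rw [List.getD_eq_getElem _ _ (lt_length C u i)]
    rcases le_total i k with h | h
    · exact (LL_prefix C u h).getElem _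
    · exact ((LL_prefix C u h).getElem _).symm

end lists

section meas

variable {Ω : Type*} {m : MeasurableSpace Ω}

theorem meas_sInf {P : ℕ → Ω → Prop} (hP : ∀ k, MeasurableSet[m] {ω | P k ω}) (i : ℕ) :
    MeasurableSet[m] {ω | sInf {k | P k ω} = i} := by
  classical
  refine meas_ev _ (meas_or (meas_and (hP i) (meas_all fun j => meas_imp (meas_const (j < i))
    (meas_not (hP j)))) (meas_and (meas_const (i = 0)) (meas_all fun j => meas_not (hP j))))
    fun ω => ?_
  simp only [mem_ofPred_eq]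
  constructor
  · intro h
    by_cases hne : {k | P k ω}.Nonempty
    · left
      have h1 := Nat.sInf_mem hne
      rw [h] at h1
      exact ⟨h1, fun j hj hj' => absurd (Nat.sInf_le (s := {k | P k ω}) hj') (by omega)⟩
    · right
      rw [Set.not_nonempty_iff_eq_empty] at hne
      rw [hne, Nat.sInf_empty] at h
      refine ⟨h.symm, fun j hj => ?_⟩
      have : j ∈ {k | P k ω} := hj
      rw [hne] at this
      exact this
  · rintro (⟨h1, h2⟩ | ⟨h1, h2⟩)
    · apply le_antisymm (Nat.sInf_le (s := {k | P k ω}) h1)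
      by_contra hcon
      push Not at hcon
      exact h2 _ hcon (Nat.sInf_mem (s := {k | P k ω}) ⟨i, h1⟩)
    · rw [show {k | P k ω} = ∅ from Set.eq_empty_of_forall_notMem h2, Nat.sInf_empty, h1]

theorem meas_sum {n : ℕ} {f : ℕ → Ω → ℕ} (hf : ∀ i, Measurable[m] (f i)) :
    Measurable[m] fun ω => ∑ i ∈ Finset.range n, f i ω :=
  Finset.measurable_fun_sum _ fun i _ => hf i

end meas

section RTG

variable {B : Type} [CompleteBooleanAlgebra B] {c : B} {Γ : Type u} [Group Γ]
  (R : RTG.{u, v} B c Γ)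

/-- The requirements for the next neighbourhood. -/
def Good (C : R.N → ℕ → Γ) (u : ℕ → R.N) (k : ℕ) (n' : R.N) : Prop :=
  ∀ ω, ω.V c → (∀ v ∈ R.U n' ω, v⁻¹ ∈ R.U (u k) ω) ∧
    (∀ v ∈ R.U n' ω, ∀ w ∈ R.U n' ω, v * w ∈ R.U (u k) ω) ∧
    (∀ d ∈ LL C u k, ∀ v ∈ R.U n' ω, d⁻¹ * v * d ∈ R.U (u k) ω) ∧
    ∀ l : List ℕ, l.length ≤ k → (∀ j ∈ l, j ≤ k) → R.U n' ω ⊆ R.U (R.σ (l.map (LL C u))) ω

theorem exists_lower {ι : Type*} {s : Set ι} (hs : s.Finite) (f : ι → R.N) :
    ∃ n', ∀ i ∈ s, ∀ ω, ω.V c → R.U n' ω ⊆ R.U (f i) ω := by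
  induction s, hs using Set.Finite.induction_on with
  | empty => exact ⟨R.σ [], by simp⟩
  | @insert a s _ _ ih =>
    obtain ⟨n', hn'⟩ := ih
    obtain ⟨n'', hn''⟩ := R.inter_U n' (f a)
    refine ⟨n'', fun i hi ω hω => ?_⟩
    rcases Set.mem_insert_iff.1 hi with rfl | hi
    · exact (hn'' ω hω).trans inter_subset_right
    · exact ((hn'' ω hω).trans inter_subset_left).trans (hn' i hi ω hω)

theorem finite_lists (k : ℕ) : {l : List ℕ | l.length ≤ k ∧ ∀ j ∈ l, j ≤ k}.Finite := by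
  have h1 : {l : List (Fin (k + 1)) | l.length ≤ k}.Finite := List.finite_length_le _ k
  apply (h1.image (List.map Fin.val)).subset
  rintro l ⟨hl, hF⟩
  refine ⟨l.attach.map fun F => ⟨F.1, Nat.lt_succ_of_le (hF F.1 F.2)⟩, ?_, ?_⟩
  · simpa using hl
  · simp [List.map_map, Function.comp_def]

theorem exists_good (C : R.N → ℕ → Γ) (u : ℕ → R.N) (k : ℕ) : ∃ n', Good R C u k n' := by
  obtain ⟨n1, hn1⟩ := R.inv_U (u k)
  obtain ⟨n2, hn2⟩ := R.mul_U (u k)
  choose f hf using R.conj_U (u k)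
  obtain ⟨n3, hn3⟩ := exists_lower R (List.finite_toSet (LL C u k)) f
  obtain ⟨n4, hn4⟩ := exists_lower R (finite_lists k) fun l => R.σ (l.map (LL C u))
  obtain ⟨m1, hm1⟩ := R.inter_U n1 n2
  obtain ⟨m2, hm2⟩ := R.inter_U n3 n4
  obtain ⟨m, hm⟩ := R.inter_U m1 m2
  refine ⟨m, fun ω hω => ?_⟩
  have h1 : R.U m ω ⊆ R.U n1 ω := ((hm ω hω).trans inter_subset_left).trans
    ((hm1 ω hω).trans inter_subset_left)
  have h2 : R.U m ω ⊆ R.U n2 ω := ((hm ω hω).trans inter_subset_left).trans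
    ((hm1 ω hω).trans inter_subset_right)
  have h3 : R.U m ω ⊆ R.U n3 ω := ((hm ω hω).trans inter_subset_right).trans
    ((hm2 ω hω).trans inter_subset_left)
  have h4 : R.U m ω ⊆ R.U n4 ω := ((hm ω hω).trans inter_subset_right).trans
    ((hm2 ω hω).trans inter_subset_right)
  refine ⟨fun v hv => hn1 ω hω v (h1 hv), fun v hv w hw => hn2 ω hω v (h2 hv) w (h2 hw),
    fun d hd v hv => hf d ω hω v (hn3 d hd ω hω (h3 hv)), fun l hl hl' =>
      h4.trans (hn4 l ⟨hl, hl'⟩ ω hω)⟩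

/-- The symmetrised neighbourhoods. -/
def VV (u : ℕ → R.N) (k : ℕ) (ω : Ult B) : Set Γ := {v | v ∈ R.U (u k) ω ∧ v⁻¹ ∈ R.U (u k) ω}

/-- The sequence of the neighbourhoods. -/
theorem exists_seq (C : R.N → ℕ → Γ) : ∃ u : ℕ → R.N, ∀ k, Good R C u k (u (k + 1)) := by
  classical
  have : Nonempty R.N := ⟨R.σ []⟩
  let step : ℕ → (ℕ → R.N) → (ℕ → R.N) := fun k H =>
    Function.update H (k + 1) (Classical.epsilon (Good R C H k))
  let s : ℕ → ℕ → R.N := fun k => Nat.rec (fun _ => R.σ []) step k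
  have hss : ∀ k, s (k + 1) =
      Function.update (s k) (k + 1) (Classical.epsilon (Good R C (s k) k)) := fun k => rfl
  let u : ℕ → R.N := fun k => s k k
  have hsu : ∀ k j, j ≤ k → s k j = u j := by
    intro k
    induction k with
    | zero => intro j hj; obtain rfl : j = 0 := by omega
              rfl
    | succ k ih =>
      intro j hj
      rcases Nat.lt_or_ge j (k + 1) with h | h
      · rw [hss, Function.update_of_ne (by omega)]
        exact ih j (by omega)
      · obtain rfl : j = k + 1 := by omega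
        rfl
  refine ⟨u, fun k => ?_⟩
  have h1 : Good R C (s k) k (Classical.epsilon (Good R C (s k) k)) :=
    Classical.epsilon_spec (exists_good R C (s k) k)
  have h2 : u (k + 1) = Classical.epsilon (Good R C (s k) k) := by
    change s (k + 1) (k + 1) = _
    rw [hss, Function.update_self]
  have hLL : ∀ j ≤ k, LL C (s k) j = LL C u j := fun j hj =>
    LL_congr C fun i hi => hsu k i (by omega)
  rw [h2]
  intro ω hω
  obtain ⟨a1, a2, a3, a4⟩ := h1 ω hω
  rw [hsu k k le_rfl] at a1 a2 a3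
  rw [hLL k le_rfl] at a3
  refine ⟨a1, a2, a3, fun l hl hl' => ?_⟩
  have := a4 l hl hl'
  rwa [List.map_congr_left fun j hj => hLL j (hl' j hj)] at this

end RTG

end BlockR1

variable {B : Type} [CompleteBooleanAlgebra B] {c : B} {Γ : Type u} [Group Γ]

open BlockR1 in
/-- R1: from random topological groups to random window systems. -/
theorem RTG.exists_rsys (R : RTG.{u, v} B c Γ) : Nonempty (RSys B c Γ) := by
  classical
  -- countable nets
  have hC : ∀ n : R.N, ∃ C : ℕ → Γ, ∀ g : Γ, AE c fun ω => ∃ k, (C k)⁻¹ * g ∈ R.U n ω := by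
    intro n
    obtain ⟨d, κ, -, h⟩ := R.obd fun _ => n
    refine ⟨fun k => d (Nat.unpair k).1 (Nat.unpair k).2, fun g => (h g).mono fun ω _ h1 => ?_⟩
    obtain ⟨i, j, -, h1⟩ := h1
    exact ⟨Nat.pair i j, by simpa using h1⟩
  choose C hC using hC
  obtain ⟨u, hu⟩ := exists_seq R C
  set L : ℕ → List Γ := LL C u with hL
  -- the neighbourhoods
  have hUanti1 : ∀ k ω, ω.V c → R.U (u (k + 1)) ω ⊆ R.U (u k) ω := fun k ω hω v hv => by
    have := (hu k ω hω).2.1 v hv 1 (R.one_U _ ω hω)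
    rwa [mul_one] at this
  have hUV : ∀ k ω, ω.V c → R.U (u (k + 1)) ω ⊆ VV R u k ω := fun k ω hω v hv =>
    ⟨hUanti1 k ω hω hv, (hu k ω hω).1 v hv⟩
  have hV1 : ∀ k ω, ω.V c → (1 : Γ) ∈ VV R u k ω := fun k ω hω =>
    ⟨R.one_U _ ω hω, by rw [inv_one]; exact R.one_U _ ω hω⟩
  have hVinv : ∀ k ω, ∀ v ∈ VV R u k ω, v⁻¹ ∈ VV R u k ω := fun k ω v hv =>
    ⟨hv.2, by rw [inv_inv]; exact hv.1⟩
  have hVmul : ∀ k ω, ω.V c → ∀ v ∈ VV R u (k + 1) ω, ∀ w ∈ VV R u (k + 1) ω,
      v * w ∈ VV R u k ω := fun k ω hω v hv w hw =>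
    ⟨(hu k ω hω).2.1 v hv.1 w hw.1, by
      rw [mul_inv_rev]; exact (hu k ω hω).2.1 _ hw.2 _ hv.2⟩
  have hVconj : ∀ k ω, ω.V c → ∀ d ∈ L k, ∀ v ∈ VV R u (k + 1) ω,
      d⁻¹ * v * d ∈ VV R u k ω := fun k ω hω d hd v hv =>
    ⟨(hu k ω hω).2.2.1 d hd v hv.1, by
      rw [show (d⁻¹ * v * d)⁻¹ = d⁻¹ * v⁻¹ * d by group]
      exact (hu k ω hω).2.2.1 d hd _ hv.2⟩
  have hVσ : ∀ k ω, ω.V c → ∀ l : List ℕ, l.length ≤ k → (∀ j ∈ l, j ≤ k) →
      VV R u (k + 1) ω ⊆ R.U (R.σ (l.map L)) ω := fun k ω hω l hl hl' v hv =>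
    (hu k ω hω).2.2.2 l hl hl' hv.1
  have hVanti : ∀ ω, ω.V c → ∀ {j k : ℕ}, j ≤ k → VV R u k ω ⊆ VV R u j ω := by
    intro ω hω j k h
    refine antitone_nat_of_succ_le (f := fun k => VV R u k ω) (fun n => ?_) h
    intro v hv
    have := hVmul n ω hω v hv 1 (hV1 (n + 1) ω hω)
    rwa [mul_one] at this
  have hVZ : ∀ k ω, ω.V c → ∀ v ∈ VV R u k ω, ∀ z ∈ R.Z ω, v * z ∈ VV R u k ω := by
    intro k ω hω v hv z hz
    refine ⟨R.U_Z _ ω hω v hv.1 z hz, ?_⟩
    have h1 := R.U_Z _ ω hω _ hv.2 _ (R.Z_conj ω hω _ ((R.Z ω).inv_mem hz) v⁻¹)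
    rwa [show v⁻¹ * (v⁻¹⁻¹ * z⁻¹ * v⁻¹) = (v * z)⁻¹ by group] at h1
  have hVmeas : ∀ g k, MeasurableSet[genM B] {ω | g ∈ VV R u k ω} := fun g k =>
    meas_and (R.meas _ _) (R.meas _ _)
  have hLmono : ∀ {j k : ℕ}, j ≤ k → ∀ {d : Γ}, d ∈ L j → d ∈ L k := fun h d hd =>
    LL_mono C u h hd
  -- density
  have hdense : ∀ m, ∀ g : Γ, AE c fun ω => ∃ k, ∃ d ∈ L k, d⁻¹ * g ∈ VV R u m ω := by
    intro m g
    refine (hC (u (m + 1)) g).mono fun ω hω h => ?_
    obtain ⟨j, hj⟩ := h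
    refine ⟨Nat.pair (m + 1) j + 1, C (u (m + 1)) j, ?_, hUV m ω hω hj⟩
    have := gen_mem C u (Nat.pair (m + 1) j)
    simpa [gen] using this
  -- o-boundedness
  choose d κ₀ hκ₀ hd using fun n => R.obd fun i => u (n + i + 2)
  let K : Ult B → ℕ → Γ → ℕ := fun ω m h => sInf {k | ∃ d ∈ L k, d⁻¹ * h ∈ VV R u m ω}
  have hK : ∀ ω m h, (∃ k, ∃ d ∈ L k, d⁻¹ * h ∈ VV R u m ω) →
      ∃ d ∈ L (K ω m h), d⁻¹ * h ∈ VV R u m ω := fun ω m h hh =>
    Nat.sInf_mem (s := {k | ∃ d ∈ L k, d⁻¹ * h ∈ VV R u m ω}) hh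
  have hKmeas : ∀ m h, Measurable[genM B] fun ω => K ω m h := fun m h =>
    meas_of_eq fun i => meas_sInf (P := fun k ω => ∃ d ∈ L k, d⁻¹ * h ∈ VV R u m ω) (fun k => by
      have : {ω : Ult B | ∃ d ∈ L k, d⁻¹ * h ∈ VV R u m ω} =
          ⋃ d ∈ {d | d ∈ L k}, {ω | d⁻¹ * h ∈ VV R u m ω} := by
        ext ω; simp
      rw [this]
      exact MeasurableSet.biUnion (List.finite_toSet (L k)).countable fun d _ => hVmeas _ _) i
  let F : ℕ → Ult B → ℕ → ℕ := fun n ω m =>
    ∑ j ∈ Finset.range (κ₀ n ω (m - n)), K ω (m + 1) (d n (m - n) j)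
  have hFmeas : ∀ n m, Measurable[genM B] fun ω => F n ω m := fun n m =>
    meas_sel (g := fun q ω => ∑ j ∈ Finset.range q, K ω (m + 1) (d n (m - n) j))
      (meas_real.1 (hκ₀ n) (m - n)) fun q => meas_sum fun j => hKmeas _ _
  have hF : ∀ g : Γ, AE c fun ω => ∀ n, ∃ m, n ≤ m ∧ ∃ d ∈ L (F n ω m),
      d⁻¹ * g ∈ VV R u m ω := by
    intro g
    have h1 : AE c fun ω => ∀ n i j, ∃ k, ∃ d' ∈ L k, d'⁻¹ * d n i j ∈ VV R u (n + i + 1) ω :=
      AE.all fun n => AE.all fun i => AE.all fun j => hdense _ _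
    have h2 : AE c fun ω => ∀ n, ∃ i, ∃ j < κ₀ n ω i, (d n i j)⁻¹ * g ∈ R.U (u (n + i + 2)) ω :=
      AE.all fun n => hd n g
    refine (h1.and h2).mono fun ω hω h n => ?_
    obtain ⟨h1, h2⟩ := h
    obtain ⟨i, j, hj, h3⟩ := h2 n
    obtain ⟨d', hd', h4⟩ := hK ω _ _ (h1 n i j)
    refine ⟨n + i, by omega, d', hLmono ?_ hd', ?_⟩
    · change K ω (n + i + 1) (d n i j) ≤
        ∑ j ∈ Finset.range (κ₀ n ω (n + i - n)), K ω (n + i + 1) (d n (n + i - n) j)
      rw [show n + i - n = i by omega]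
      exact Finset.single_le_sum (f := fun j => K ω (n + i + 1) (d n i j))
        (fun _ _ => Nat.zero_le _) (Finset.mem_range.2 hj)
    · have := hVmul (n + i) ω hω _ h4 _ (hUV _ ω hω h3)
      rwa [show d'⁻¹ * d n i j * ((d n i j)⁻¹ * g) = d'⁻¹ * g by group] at this
  -- the function kappa
  let κ : Ult B → ℕ → ℕ := fun ω m =>
    m + ∑ j ∈ Finset.range (m + 1), ∑ n ∈ Finset.range (m + 1), F n ω j
  have hκmeas : ∀ m, Measurable[genM B] fun ω => κ ω m := fun m =>
    measurable_const.add (meas_sum fun j => meas_sum fun n => hFmeas n j)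
  have hκF : ∀ ω n m, n ≤ m → F n ω m ≤ κ ω m := by
    intro ω n m h
    have h1 : F n ω m ≤ ∑ n ∈ Finset.range (m + 1), F n ω m :=
      Finset.single_le_sum (f := fun n => F n ω m) (fun _ _ => Nat.zero_le _)
        (Finset.mem_range.2 (by omega))
    have h2 : (∑ n ∈ Finset.range (m + 1), F n ω m) ≤
        ∑ j ∈ Finset.range (m + 1), ∑ n ∈ Finset.range (m + 1), F n ω j :=
      Finset.single_le_sum (f := fun j => ∑ n ∈ Finset.range (m + 1), F n ω j)
        (fun _ _ => Nat.zero_le _) (Finset.mem_range.2 (by omega))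
    change F n ω m ≤ m + _
    omega
  have hκid : ∀ ω m, m ≤ κ ω m := fun ω m => Nat.le_add_right _ _
  have hκmono : ∀ ω, ∀ {a b : ℕ}, a ≤ b → κ ω a ≤ κ ω b := by
    intro ω a b h
    refine Nat.add_le_add h ?_
    calc ∑ j ∈ Finset.range (a + 1), ∑ n ∈ Finset.range (a + 1), F n ω j
        ≤ ∑ j ∈ Finset.range (a + 1), ∑ n ∈ Finset.range (b + 1), F n ω j := by
          refine Finset.sum_le_sum fun j _ => ?_
          exact Finset.sum_le_sum_of_subset (Finset.range_mono (by omega))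
      _ ≤ ∑ j ∈ Finset.range (b + 1), ∑ n ∈ Finset.range (b + 1), F n ω j :=
          Finset.sum_le_sum_of_subset (Finset.range_mono (by omega))
  -- the windows
  let w : Ult B → ℕ → ℕ := fun ω i => Nat.rec 0 (fun _ x => κ ω x + 1) i
  have hws : ∀ ω i, w ω (i + 1) = κ ω (w ω i) + 1 := fun ω i => rfl
  have hwmono : ∀ ω, StrictMono (w ω) := fun ω => strictMono_nat_of_lt_succ fun i => by
    rw [hws]; exact Nat.lt_succ_of_le (hκid _ _)
  have hwid : ∀ ω i, i ≤ w ω i := fun ω i => (hwmono ω).id_le i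
  have hwmeas : ∀ i, Measurable[genM B] fun ω => w ω i := by
    intro i
    induction i with
    | zero => exact measurable_const
    | succ i ih => exact meas_sel (g := fun x ω => κ ω x + 1) (meas_eq ih) fun x =>
        (hκmeas x).add measurable_const
  have hwsel : ∀ {k : Ult B → ℕ}, Measurable[genM B] k → Measurable[genM B] fun ω => w ω (k ω) :=
    fun hk => meas_sel (g := fun x ω => w ω x) (meas_eq hk) hwmeas
  have hκw : ∀ {k : Ult B → ℕ}, Measurable[genM B] k → Measurable[genM B] fun ω => κ ω (w ω (k ω)) :=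
    fun hk => meas_sel (g := fun x ω => κ ω x) (meas_eq (hwsel hk)) hκmeas
  refine ⟨{
    Z := R.Z
    V := fun ω i => VV R u (w ω i) ω
    E := fun ω i => (L (κ ω (w ω i))).toFinset
    D := ⋃ k, {d | d ∈ L k}
    D_ctbl := countable_iUnion fun k => (List.finite_toSet (L k)).countable
    E_sub := fun ω i d hd => mem_iUnion.2 ⟨_, List.mem_toFinset.1 hd⟩
    meas_V := fun g i => meas_sel_set (P := fun k ω => g ∈ VV R u k ω) (meas_eq (hwmeas i))
      fun k => hVmeas g k
    meas_E := fun g i => by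
      simp only [List.mem_toFinset]
      exact meas_rel1 (meas_eq (hκw (k := fun _ => i) measurable_const)) fun k => g ∈ L k
    Z_conj := R.Z_conj
    V_Z := fun ω hω i => hVZ _ ω hω
    one_V := fun ω hω i => hV1 _ ω hω
    inv_V := fun ω hω i => hVinv _ ω
    mul_V := ?_
    one_E := fun ω hω i => List.mem_toFinset.2 (one_LL C u _)
    inv_E := fun ω hω i d hd => List.mem_toFinset.2 (inv_LL C u _ d (List.mem_toFinset.1 hd))
    mul_E := ?_
    conj := ?_
    small := ?_
    big := ?_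
    mix := R.mix }⟩
  · intro ω hω i v hv v' hv'
    have hle : w ω i + 1 ≤ w ω (i + 1) := hwmono ω (Nat.lt_succ_self i)
    exact hVmul (w ω i) ω hω v (hVanti ω hω hle hv) v' (hVanti ω hω hle hv')
  · intro ω hω i a ha d hd
    rw [List.mem_toFinset] at ha hd ⊢
    refine hLmono ?_ (mul_LL C u _ ha hd)
    have := hκid ω (w ω (i + 1))
    rw [hws] at this
    exact this
  · intro ω hω i d hd v hv
    rw [List.mem_toFinset] at hd
    rw [hws] at hv
    exact hVanti ω hω (hκid _ _) (hVconj _ ω hω d hd v hv)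
  · intro g
    refine (hF g).mono fun ω hω h => ?_
    rw [frequently_atTop]
    intro a
    obtain ⟨m, hm, d, hd, h⟩ := h (w ω a)
    -- the window of m
    have hex : ∃ i, m < w ω (i + 1) :=
      ⟨m, lt_of_lt_of_le (Nat.lt_succ_self m) (hwid ω (m + 1))⟩
    set i := Nat.find hex with hi
    have h1 : m < w ω (i + 1) := Nat.find_spec hex
    have h2 : w ω i ≤ m := by
      rcases Nat.eq_zero_or_pos i with h0 | hpos
      · rw [h0]; exact Nat.zero_le _
      · obtain ⟨i', hi'⟩ : ∃ i', i = i' + 1 := ⟨i - 1, by omega⟩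
        rw [hi']
        by_contra hcon
        push Not at hcon
        have := Nat.find_min' hex hcon
        omega
    refine ⟨i, ?_, d, List.mem_toFinset.2 (hLmono
      ((hκF ω _ _ hm).trans (hκmono ω h1.le)) hd), hVanti ω hω h2 h⟩
    by_contra hcon
    push Not at hcon
    have : w ω (i + 1) ≤ w ω a := (hwmono ω).monotone (show i + 1 ≤ a by omega)
    omega
  · intro J hJ hJ'
    let q : Ult B → ℕ → ℕ := fun ω k => κ ω (w ω (J ω (k + 1)))
    have hq : ∀ k, Measurable[genM B] fun ω => q ω k := fun k =>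
      hκw ((measurable_pi_apply (k + 1)).comp hJ)
    obtain ⟨z, hz⟩ := R.win (fun _ => dd C u) (fun ω k => (L (q ω k)).length)
      (meas_real.2 fun k i => meas_rel1 (meas_eq (hq k)) fun x => (L x).length = i)
    refine ⟨z, hz.mono fun ω hω h k => ?_⟩
    rintro ⟨d, hd, hdz⟩
    rw [List.mem_toFinset] at hd
    rw [hws] at hdz
    have hhist : hist (fun _ : ℕ => dd C u) (fun k => (L (q ω k)).length) k =
        ((List.range k).map (q ω)).map L := by
      unfold hist
      rw [List.map_map]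
      refine List.map_congr_left fun i _ => ?_
      exact map_dd C u (q ω i)
    have hd2 : d ∈ (List.range (L (q ω k)).length).map (dd C u) := by
      rw [hL, map_dd C u]; exact hd
    rw [List.mem_map] at hd2
    obtain ⟨j, hj, rfl⟩ := hd2
    refine h k j (List.mem_range.1 hj) ?_
    rw [hhist]
    refine hVσ (κ ω (w ω (J ω k))) ω hω _ ?_ ?_ hdz
    · simp only [List.length_map, List.length_range]
      exact ((hJ' ω).id_le k).trans ((hwid _ _).trans (hκid _ _))
    · intro F' hF'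
      simp only [List.mem_map, List.mem_range] at hF'
      obtain ⟨j, hj, rfl⟩ := hF'
      exact hκmono ω ((hwmono ω).monotone ((hJ' ω).monotone (by omega)))

end Pool.Agent.MP_b00c97_gt.RN
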