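import Pool.Agent.MP_b00c97_gt.RN.N7
import Pool.Agent.MP_b00c97_gt.RN.N1

/-!
# MP_b00c97_gt: there are no random topological groups with `LProp`
-/

set_option autoImplicit false

namespace Pool.Agent.MP_b00c97_gt.RN

open Pool.Agent.BVM Pool.Agent.MP9096b7 Pool.Agent.MP_b00c97_gt.Lav

universe u v

variable {B : Type} [CompleteBooleanAlgebra B] {c : B} {Γ : Type u} [Group Γ]

/-- Under `LProp B` there is no random topological group (on a nonzero event) which is `o`-bounded
and on which player I has a winning strategy. -/
theorem RTG.false (hL : LProp B) (R : RTG.{u, v} B c Γ) (hc : c ≠ ⊥) : False := by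
  obtain ⟨S⟩ := R.exists_rsys
  exact S.false hL hc

end Pool.Agent.MP_b00c97_gt.RN
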