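import Pool.Agent.MP_b00c97_gt.RN.Defs
import Pool.Agent.MP_b00c97_gt.Lav.Loc

/-! # MP_b00c97_gt: basic facts on random window systems -/

set_option autoImplicit false

open Set MeasureTheory Filter

namespace Pool.Agent.MP_b00c97_gt.RN

open Pool.Agent.BVM Pool.Agent.MP9096b7
open Pool.Agent.MP_b00c97_gt.Lav (meas_sel meas_sel_set meas_all meas_ex meas_and meas_or meas_not
  meas_imp meas_const meas_rel meas_rel1 meas_real meas_ev meas_eq)

universe u v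

variable {B : Type} [CompleteBooleanAlgebra B] {c : B} {Γ : Type u} [Group Γ]

/-- A measurable event has a Boolean value. -/
theorem exists_bv {A : Set (Ult B)} (hA : MeasurableSet[genM B] A) :
    ∃ b : B, ∀ᶠ ω in genN B, (ω.V b ↔ ω ∈ A) := by
  obtain ⟨b, hb⟩ := hA
  exact ⟨b, hb.mono fun ω h => h.symm⟩

/-- Locality: if the `b i` cover `c` it suffices to consider almost all `ω` in `b i`. -/
theorem AE.local {c : B} {ι : Type*} (b : ι → B) (hb : c ≤ ⨆ i, b i) {P : Ult B → Prop}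
    (h : ∀ i, ∀ᶠ ω in genN B, ω.V (b i) → ω.V c → P ω) : AE c P := by
  have := Lav.gen_local (ι := Option ι) (fun i => i.elim cᶜ b) (by
    rw [iSup_option]
    change cᶜ ⊔ ⨆ i, b i = ⊤
    rw [eq_top_iff]
    calc (⊤ : B) = cᶜ ⊔ c := by simp
      _ ≤ _ := sup_le_sup_left hb _) (Q := fun ω => ω.V c → P ω) (by
    intro i
    cases i with
    | none =>
      refine Eventually.of_forall fun ω h1 h2 => ?_
      change ω.V cᶜ at h1
      rw [ω.compl'] at h1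
      exact absurd h2 h1
    | some i => exact h i)
  exact this

theorem AE.false {c : B} (hc : c ≠ ⊥) (h : AE c fun _ => False) : False := by
  obtain ⟨ω, -, h⟩ := h.exists hc
  exact h

namespace RSys

variable (S : RSys B c Γ)

section pointwise

variable {S} {ω : Ult B} (hω : ω.V c)

include hω

theorem V_succ (i : ℕ) : S.V ω (i + 1) ⊆ S.V ω i := fun v hv => by
  have := S.mul_V ω hω i v hv 1 (S.one_V ω hω _)
  rwa [mul_one] at this

theorem V_anti {i j : ℕ} (h : i ≤ j) : S.V ω j ⊆ S.V ω i :=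
  antitone_nat_of_succ_le (f := S.V ω) (V_succ hω) h

theorem E_succ (i : ℕ) : S.E ω i ⊆ S.E ω (i + 1) := fun d hd => by
  have := S.mul_E ω hω i d hd 1 (S.one_E ω hω _)
  rwa [mul_one] at this

theorem E_mono {i j : ℕ} (h : i ≤ j) : S.E ω i ⊆ S.E ω j :=
  monotone_nat_of_le_succ (f := S.E ω) (E_succ hω) h

theorem mul_V' {i j k : ℕ} (hi : k < i) (hj : k < j) {v w : Γ} (hv : v ∈ S.V ω i)
    (hw : w ∈ S.V ω j) : v * w ∈ S.V ω k :=
  S.mul_V ω hω k v (V_anti hω hi hv) w (V_anti hω hj hw)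

theorem mul_E' {i j k : ℕ} (hi : i < k) (hj : j < k) {a d : Γ} (ha : a ∈ S.E ω i)
    (hd : d ∈ S.E ω j) : a * d ∈ S.E ω k := by
  obtain ⟨k, rfl⟩ : ∃ k', k = k' + 1 := ⟨k - 1, by omega⟩
  exact S.mul_E ω hω k a (E_mono hω (by omega) ha) d (E_mono hω (by omega) hd)

theorem conj' {i j k : ℕ} (hi : i < j) (hk : k < j) {d v : Γ} (hd : d ∈ S.E ω i)
    (hv : v ∈ S.V ω j) : d⁻¹ * v * d ∈ S.V ω k := by
  obtain ⟨j, rfl⟩ : ∃ j', j = j' + 1 := ⟨j - 1, by omega⟩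
  exact V_anti hω (by omega) (S.conj ω hω j d (E_mono hω (by omega) hd) v hv)

theorem In.mono {g : Γ} {k k' m m' : ℕ} (h : S.In ω g k m) (hk : k ≤ k') (hm : m' ≤ m) :
    S.In ω g k' m' := by
  obtain ⟨d, hd, h⟩ := h
  exact ⟨d, E_mono hω hk hd, V_anti hω hm h⟩

omit hω in
theorem in_iff {g : Γ} {k m : ℕ} : S.In ω g k m ↔ ∃ d ∈ S.E ω k, ∃ v ∈ S.V ω m, g = d * v := by
  constructor
  · rintro ⟨d, hd, h⟩
    exact ⟨d, hd, _, h, by group⟩
  · rintro ⟨d, hd, v, hv, rfl⟩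
    exact ⟨d, hd, by simpa using hv⟩

/-- `E k * V m * V m'` is contained in `E k * V n` for `n < m, m'`. -/
theorem In.mul_V {g : Γ} {k m m' n : ℕ} (h : S.In ω g k m) {v : Γ} (hv : v ∈ S.V ω m')
    (hm : n < m) (hm' : n < m') : S.In ω (g * v) k n := by
  obtain ⟨d, hd, h⟩ := h
  refine ⟨d, hd, ?_⟩
  rw [← mul_assoc]
  exact mul_V' hω hm hm' h hv

/-- `E k * V m * E k' * V m'` is contained in `E l * V n` if `k, k' < l`, `k' < m` and
`n + 1 < m`, `n < m'`. -/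
theorem In.mul {g g' : Γ} {k m k' m' n l : ℕ} (h : S.In ω g k m) (h' : S.In ω g' k' m')
    (hk : k < l) (hk' : k' < l) (hkm : k' < m) (hm : n + 1 < m) (hm' : n < m') :
    S.In ω (g * g') l n := by
  obtain ⟨d, hd, v, hv, rfl⟩ := in_iff.1 h
  obtain ⟨d', hd', v', hv', rfl⟩ := in_iff.1 h'
  refine in_iff.2 ⟨d * d', mul_E' hω hk hk' hd hd', (d'⁻¹ * v * d') * v', ?_, by group⟩
  exact mul_V' hω (i := n + 1) (by omega) hm' (conj' hω hkm hm hd' hv) hv'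

/-- `In` only depends on the value at `ω`. -/
theorem In.congr {g g' : Γ} {k m : ℕ} (h : S.In ω g k m) (hz : g⁻¹ * g' ∈ S.Z ω) :
    S.In ω g' k m := by
  obtain ⟨d, hd, h⟩ := h
  refine ⟨d, hd, ?_⟩
  have := S.V_Z ω hω m _ h _ hz
  rwa [show d⁻¹ * g * (g⁻¹ * g') = d⁻¹ * g' by group] at this

theorem Z_inv {g g' : Γ} (hz : g⁻¹ * g' ∈ S.Z ω) : (g⁻¹)⁻¹ * g'⁻¹ ∈ S.Z ω := by
  have h1 : (g⁻¹ * g')⁻¹ ∈ S.Z ω := (S.Z ω).inv_mem hz
  have h2 := S.Z_conj ω hω _ h1 g⁻¹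
  rwa [show (g⁻¹)⁻¹ * (g⁻¹ * g')⁻¹ * g⁻¹ = (g⁻¹)⁻¹ * g'⁻¹ by group] at h2

omit hω in
theorem Z_symm {g g' : Γ} (hz : g⁻¹ * g' ∈ S.Z ω) : g'⁻¹ * g ∈ S.Z ω := by
  have := (S.Z ω).inv_mem hz
  rwa [show (g⁻¹ * g')⁻¹ = g'⁻¹ * g by group] at this

omit hω in
theorem Z_mul_left {g g' : Γ} (hz : g⁻¹ * g' ∈ S.Z ω) (a : Γ) : (a * g)⁻¹ * (a * g') ∈ S.Z ω := by
  rwa [show (a * g)⁻¹ * (a * g') = g⁻¹ * g' by group]

theorem Z_mul_right {g g' : Γ} (hz : g⁻¹ * g' ∈ S.Z ω) (a : Γ) :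
    (g * a)⁻¹ * (g' * a) ∈ S.Z ω := by
  have := S.Z_conj ω hω _ hz a
  rwa [show a⁻¹ * (g⁻¹ * g') * a = (g * a)⁻¹ * (g' * a) by group] at this

theorem Bad.congr {g : ℕ → ℕ} {v v' : Γ} {a : ℕ} (h : S.Bad ω g v a) (hz : v⁻¹ * v' ∈ S.Z ω) :
    S.Bad ω g v' a := by
  obtain ⟨k, hk, h1, h2⟩ := h
  exact ⟨k, hk, In.congr hω h1 (Z_inv hω hz), fun n hn hn' h3 =>
    h2 n hn hn' (In.congr hω h3 (Z_symm hz))⟩

theorem StepRel.congr {x A J : ℕ → ℕ} {z z' : Γ} (h : S.StepRel ω x A J z)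
    (hz : z⁻¹ * z' ∈ S.Z ω) : S.StepRel ω x A J z' := by
  obtain ⟨h1, h2, h3, h4, h5, h6⟩ := h
  refine ⟨h1, h2, h3, fun k hk => h4 k (In.congr hω hk (Z_symm hz)), fun a ha => ?_,
    fun a a' ha ha' haa => ?_⟩
  · obtain ⟨k, e, e1, e2, e3, e4, e5⟩ := h5 a ha
    exact ⟨k, e, e1, e2, e3, e4, In.congr hω e5 hz⟩
  · obtain ⟨s, s1, s2, s3, s4⟩ := h6 a a' ha ha' haa
    exact ⟨s, s1, s2, s3, fun i hi => In.congr hω (s4 i hi) hz⟩

end pointwise

theorem meas_In (g : Γ) (k m : ℕ) : MeasurableSet[genM B] {ω | S.In ω g k m} := by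
  have : {ω | S.In ω g k m} = ⋃ d ∈ S.D, {ω | d ∈ S.E ω k} ∩ {ω | d⁻¹ * g ∈ S.V ω m} := by
    ext ω
    simp only [In, mem_ofPred_eq, mem_iUnion, mem_inter_iff]
    constructor
    · rintro ⟨d, hd, h⟩
      exact ⟨d, S.E_sub ω k d hd, hd, h⟩
    · rintro ⟨d, -, hd, h⟩
      exact ⟨d, hd, h⟩
  rw [this]
  exact MeasurableSet.biUnion S.D_ctbl fun d _ => (S.meas_E d k).inter (S.meas_V _ m)

theorem meas_In' (g : Γ) {k m : Ult B → ℕ} (hk : ∀ i, MeasurableSet[genM B] {ω | k ω = i})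
    (hm : ∀ i, MeasurableSet[genM B] {ω | m ω = i}) :
    MeasurableSet[genM B] {ω | S.In ω g (k ω) (m ω)} :=
  meas_sel_set (P := fun i ω => S.In ω g i (m ω)) hk fun i =>
    meas_sel_set (P := fun j ω => S.In ω g i j) hm fun j => S.meas_In g i j

theorem meas_Bad (v : Γ) {g : Ult B → ℕ → ℕ} (hg : IsR g) (a : ℕ) :
    MeasurableSet[genM B] {ω | S.Bad ω (g ω) v a} :=
  meas_ex fun k => meas_and (meas_const _) (meas_and (S.meas_In _ _ _) (meas_all fun n =>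
    meas_imp (meas_const _) (meas_imp (meas_const _) (meas_not
      (S.meas_In' v (meas_real.1 hg n) fun i => meas_const _)))))

/-- The level of `g` at precision `m` at `ω` (`0` if it is not defined). -/
noncomputable def lev (ω : Ult B) (g : Γ) (m : ℕ) : ℕ := sInf {k | S.In ω g k m}

theorem exists_level (g : Γ) : AE c fun ω => ∀ m, ∃ k, S.In ω g k m := by
  refine (S.small g).mono fun ω hω h m => ?_
  obtain ⟨i, hi, h⟩ := h.forall_exists_of_atTop m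
  exact ⟨i + 1, In.mono (S := S) hω h le_rfl hi⟩

theorem in_lev {ω : Ult B} {g : Γ} {m : ℕ} (h : ∃ k, S.In ω g k m) : S.In ω g (S.lev ω g m) m :=
  Nat.sInf_mem (s := {k | S.In ω g k m}) h

theorem lev_le {ω : Ult B} {g : Γ} {k m : ℕ} (h : S.In ω g k m) : S.lev ω g m ≤ k :=
  Nat.sInf_le (s := {k | S.In ω g k m}) h

/-- Restriction to a smaller event. -/
def restrict {c' : B} (hc : c' ≤ c) : RSys B c' Γ where
  Z := S.Z
  V := S.V
  E := S.E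
  D := S.D
  D_ctbl := S.D_ctbl
  E_sub := S.E_sub
  meas_V := S.meas_V
  meas_E := S.meas_E
  Z_conj := fun ω h => S.Z_conj ω (ω.mono hc h)
  V_Z := fun ω h => S.V_Z ω (ω.mono hc h)
  one_V := fun ω h => S.one_V ω (ω.mono hc h)
  inv_V := fun ω h => S.inv_V ω (ω.mono hc h)
  mul_V := fun ω h => S.mul_V ω (ω.mono hc h)
  one_E := fun ω h => S.one_E ω (ω.mono hc h)
  inv_E := fun ω h => S.inv_E ω (ω.mono hc h)
  mul_E := fun ω h => S.mul_E ω (ω.mono hc h)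
  conj := fun ω h => S.conj ω (ω.mono hc h)
  small := fun g => (S.small g).restrict hc
  big := fun J hJ hJ' => by
    obtain ⟨z, hz⟩ := S.big J hJ hJ'
    exact ⟨z, hz.restrict hc⟩
  mix := fun ι b g hb => by
    obtain ⟨g', hg'⟩ := S.mix ι b g hb
    exact ⟨g', fun i ω h1 h2 => hg' i ω h1 (ω.mono hc h2)⟩

end RSys

end Pool.Agent.MP_b00c97_gt.RN
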