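import Pool.Agent.MP_b00c97_gt.RN.Basic

/-!
# MP_b00c97_gt, part RN, block RL: local choice
-/

set_option autoImplicit false

open Set MeasureTheory Filter

namespace Pool.Agent.MP_b00c97_gt.RN

open Pool.Agent.BVM Pool.Agent.MP9096b7 Pool.Agent.MP_b00c97_gt.Lav

universe u v

variable {B : Type} [CompleteBooleanAlgebra B]

/-- An almost sure event has value `⊤`. -/
theorem eq_top_of_ae {b : B} (h : ∀ᶠ ω in genN B, ω.V b) : b = ⊤ := by
  by_contra hb
  have h1 : bᶜ ≠ ⊥ := fun h0 => hb (compl_eq_bot.1 h0)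
  obtain ⟨ω, h2, h3⟩ := gen_exists h h1
  rw [ω.compl'] at h3
  exact h3 h2

/-- The disjoint refinement of a family along a well-order. -/
noncomputable def disj {ι : Type*} (b : ι → B) (i : ι) : B :=
  b i ⊓ (⨆ j : {j // WellOrderingRel j i}, b j.1)ᶜ

theorem disj_le {ι : Type*} (b : ι → B) (i : ι) : disj b i ≤ b i := inf_le_left

theorem disj_lt {ι : Type*} (b : ι → B) {i j : ι} (h : WellOrderingRel j i) (ω : Ult B)
    (hi : ω.V (disj b i)) : ¬ ω.V (b j) := by
  intro hj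
  have h4 : ω.V ((⨆ l : {l // WellOrderingRel l i}, b l.1)ᶜ) := ω.mono inf_le_right hi
  rw [ω.compl'] at h4
  exact h4 (ω.mono (le_iSup (fun l : {l // WellOrderingRel l i} => b l.1) ⟨j, h⟩) hj)

theorem iSup_disj {ι : Type*} (b : ι → B) : ⨆ i, disj b i = ⨆ i, b i := by
  have hwf : WellFounded (WellOrderingRel (α := ι)) := WellOrderingRel.isWellOrder.wf
  refine le_antisymm (iSup_mono fun i => disj_le b i) (iSup_le fun i => ?_)
  induction i using hwf.induction with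
  | _ i ih =>
    have h2 : b i ≤ disj b i ⊔ ⨆ j : {j // WellOrderingRel j i}, b j.1 := by
      have h3 : disj b i ⊔ (⨆ j : {j // WellOrderingRel j i}, b j.1) =
          b i ⊔ ⨆ j : {j // WellOrderingRel j i}, b j.1 := by
        show b i ⊓ (⨆ j : {j // WellOrderingRel j i}, b j.1)ᶜ ⊔
          (⨆ j : {j // WellOrderingRel j i}, b j.1) = _
        rw [sup_inf_right, compl_sup_eq_top, inf_top_eq]
      rw [h3]; exact le_sup_left
    exact h2.trans (sup_le (le_iSup (disj b) i) (iSup_le fun j => ih j.1 j.2))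

theorem disj_unique {ι : Type*} (b : ι → B) (ω : Ult B) {i j : ι} (hi : ω.V (disj b i))
    (hj : ω.V (disj b j)) : i = j := by
  rcases trichotomous_of WellOrderingRel i j with h5 | h5 | h5
  · exact (disj_lt b h5 ω hj (ω.mono (disj_le b i) hi)).elim
  · exact h5
  · exact (disj_lt b h5 ω hi (ω.mono (disj_le b j) hj)).elim

theorem pairwise_disj {ι : Type*} (b : ι → B) :
    Pairwise fun i j => Disjoint (disj b i) (disj b j) := by
  intro i j hij
  rcases trichotomous_of WellOrderingRel i j with h5 | h5 | h5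
  · refine Disjoint.mono_left ((disj_le b i).trans
      (le_iSup (fun l : {l // WellOrderingRel l j} => b l.1) ⟨i, h5⟩)) ?_
    exact disjoint_compl_right.mono_right inf_le_right
  · exact (hij h5).elim
  · refine Disjoint.symm (Disjoint.mono_left ((disj_le b j).trans
      (le_iSup (fun l : {l // WellOrderingRel l i} => b l.1) ⟨j, h5⟩)) ?_)
    exact disjoint_compl_right.mono_right inf_le_right

/-- Mixing of reals along a cover. -/
theorem exists_mixReal {ι : Type*} (b : ι → B) (F : ι → Ult B → ℕ → ℕ) (hF : ∀ i, IsR (F i))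
    (s₀ : ℕ → ℕ) :
    ∃ G : Ult B → ℕ → ℕ, IsR G ∧ (∀ i ω, ω.V (disj b i) → G ω = F i ω) ∧
      ∀ ω, (¬ ∃ i, ω.V (disj b i)) → G ω = s₀ := by
  classical
  let G : Ult B → ℕ → ℕ := fun ω => if h : ∃ i, ω.V (disj b i) then F h.choose ω else s₀
  have hG : ∀ i ω, ω.V (disj b i) → G ω = F i ω := by
    intro i ω hi
    have h : ∃ i, ω.V (disj b i) := ⟨i, hi⟩
    show (if h : ∃ i, ω.V (disj b i) then F h.choose ω else s₀) = _
    rw [dif_pos h, disj_unique b ω h.choose_spec hi]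
  have hG0 : ∀ ω, (¬ ∃ i, ω.V (disj b i)) → G ω = s₀ := fun ω h => by
    show (if h : ∃ i, ω.V (disj b i) then F h.choose ω else s₀) = _
    rw [dif_neg h]
  refine ⟨G, ?_, hG, hG0⟩
  unfold IsR
  rw [meas_real]
  intro n k
  have h2 : ∀ i, ∃ c : B, ∀ᶠ ω in genN B, (F i ω n = k ↔ ω.V c) := fun i =>
    genM_iff.1 (meas_real.1 (hF i) n k)
  choose c hc using h2
  let c' : Option ι → B := fun o => o.elim ((⨆ i, disj b i)ᶜ ⊓ if s₀ n = k then ⊤ else ⊥)
    fun i => disj b i ⊓ c i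
  refine genM_iff.2 ⟨⨆ o, c' o, ?_⟩
  let d : Option ι → B := fun o => o.elim (⨆ i, disj b i)ᶜ (disj b)
  have hd : ⨆ o, d o = ⊤ := by
    rw [iSup_option]
    exact compl_sup_eq_top
  have hdu : ∀ ω : Ult B, ω.V (d none) → ∀ i, ¬ ω.V (disj b i) := by
    intro ω h1 i h2
    change ω.V (⨆ i, disj b i)ᶜ at h1
    rw [ω.compl'] at h1
    exact h1 (ω.mono (le_iSup (disj b) i) h2)
  refine gen_local d hd fun o => ?_
  cases o with
  | none =>
    filter_upwards [gen_iSup c'] with ω h1 h2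
    show G ω n = k ↔ _
    rw [hG0 ω fun ⟨i, hi⟩ => hdu ω h2 i hi, h1]
    constructor
    · intro h3
      refine ⟨none, ?_⟩
      show ω.V ((⨆ i, disj b i)ᶜ ⊓ if s₀ n = k then ⊤ else ⊥)
      rw [if_pos h3, inf_top_eq]
      exact h2
    · rintro ⟨o, ho⟩
      cases o with
      | none =>
        change ω.V ((⨆ i, disj b i)ᶜ ⊓ if s₀ n = k then ⊤ else ⊥) at ho
        by_contra h3
        rw [if_neg h3, inf_bot_eq] at ho
        exact ω.bot ho
      | some i =>
        exact (hdu ω h2 i (ω.mono inf_le_left ho)).elim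
  | some i =>
    filter_upwards [gen_iSup c', hc i] with ω h1 h2 h3
    show G ω n = k ↔ _
    rw [hG i ω h3, h2, h1]
    constructor
    · intro h4
      exact ⟨some i, (ω.inf' _ _).2 ⟨h3, h4⟩⟩
    · rintro ⟨o, ho⟩
      cases o with
      | none => exact (hdu ω (ω.mono inf_le_left ho) i h3).elim
      | some j =>
        rw [disj_unique b ω h3 (ω.mono inf_le_left ho)]
        exact ω.mono inf_le_right ho

/-- RL: local choice.  `W` is a type of names with a notion of equality at `ω` and mixing. -/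
theorem exists_localChoice {W : Type u} (eqv : Ult B → W → W → Prop)
    (mixW : ∀ (ι : Type) (b : ι → B) (w : ι → W), Pairwise (fun i j => Disjoint (b i) (b j)) →
      ∃ w' : W, ∀ i, ∀ᶠ ω in genN B, ω.V (b i) → eqv ω (w i) w')
    (Rel : Ult B → (ℕ → ℕ) → (ℕ → ℕ) → (ℕ → ℕ) → W → Prop)
    (hRel : ∀ ω x y z w w', eqv ω w w' → Rel ω x y z w → Rel ω x y z w')
    (h : ∀ F G : Ult B → ℕ → ℕ, IsR F → IsR G →
      ∃ (H : Ult B → ℕ → ℕ) (w : W), IsR H ∧ ∀ᶠ ω in genN B, Rel ω (F ω) (G ω) (H ω) w) :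
    ∃ Op : (Ult B → ℕ → ℕ) → (Ult B → ℕ → ℕ) → (Ult B → ℕ → ℕ),
      (∀ F G, IsR F → IsR G → IsR (Op F G)) ∧
      (∀ F G F' G', IsR F → IsR G → IsR F' → IsR G' →
        ∀ᶠ ω in genN B, F ω = F' ω → G ω = G' ω → Op F G ω = Op F' G' ω) ∧
      ∀ F G, IsR F → IsR G → ∃ w : W, ∀ᶠ ω in genN B, Rel ω (F ω) (G ω) (Op F G ω) w := by
  classical
  let α : Type := {p : (Ult B → ℕ → ℕ) × (Ult B → ℕ → ℕ) // IsR p.1 ∧ IsR p.2}
  have hα : ∀ p : α, ∃ (H : Ult B → ℕ → ℕ) (w : W), IsR H ∧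
      ∀ᶠ ω in genN B, Rel ω (p.1.1 ω) (p.1.2 ω) (H ω) w := fun p => h _ _ p.2.1 p.2.2
  choose H w hH hw using hα
  have he : ∀ p q : α, ∃ b : B, ∀ᶠ ω in genN B,
      (ω.V b ↔ p.1.1 ω = q.1.1 ω ∧ p.1.2 ω = q.1.2 ω) := by
    intro p q
    have h1 : MeasurableSet[genM B] {ω | p.1.1 ω = q.1.1 ω ∧ p.1.2 ω = q.1.2 ω} := by
      refine meas_and ?_ ?_
      · exact meas_ev _ (meas_all fun n => meas_rel (meas_real.1 p.2.1 n) (meas_real.1 q.2.1 n)
          (· = ·)) fun ω => funext_iff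
      · exact meas_ev _ (meas_all fun n => meas_rel (meas_real.1 p.2.2 n) (meas_real.1 q.2.2 n)
          (· = ·)) fun ω => funext_iff
    exact exists_bv h1
  choose e he using he
  have htop : ∀ p, ⨆ q, disj (e p) q = ⊤ := by
    intro p
    rw [iSup_disj, eq_top_iff]
    refine le_trans ?_ (le_iSup (e p) p)
    rw [eq_top_of_ae ((he p p).mono fun ω h1 => h1.2 ⟨rfl, rfl⟩)]
  choose G hG1 hG2 hG3 using fun p : α => exists_mixReal (e p) H hH 0
  let Op : (Ult B → ℕ → ℕ) → (Ult B → ℕ → ℕ) → (Ult B → ℕ → ℕ) := fun F F' =>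
    if hF : IsR F ∧ IsR F' then G ⟨(F, F'), hF⟩ else 0
  have hOp : ∀ F F' (hF : IsR F) (hF' : IsR F'), Op F F' = G ⟨(F, F'), hF, hF'⟩ := by
    intro F F' hF hF'
    show (if hF : IsR F ∧ IsR F' then G ⟨(F, F'), hF⟩ else 0) = _
    rw [dif_pos ⟨hF, hF'⟩]
  refine ⟨Op, fun F F' hF hF' => ?_, fun F1 F2 F1' F2' hF1 hF2 hF1' hF2' => ?_,
    fun F F' hF hF' => ?_⟩
  · rw [hOp F F' hF hF']
    exact hG1 _
  · rw [hOp _ _ hF1 hF2, hOp _ _ hF1' hF2']
    set p : α := ⟨(F1, F2), hF1, hF2⟩ with hp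
    set p' : α := ⟨(F1', F2'), hF1', hF2'⟩ with hp'
    have key : ∀ p p' q q' : α, WellOrderingRel q q' → ∀ᶠ ω in genN B, ω.V (disj (e p) q) →
        ω.V (disj (e p') q') → p.1.1 ω = p'.1.1 ω → p.1.2 ω = p'.1.2 ω → False := by
      intro p p' q q' hqq'
      filter_upwards [he p q, he p' q] with ω h1 h2 h3 h4 h5 h6
      refine disj_lt (e p') hqq' ω h4 (h2.2 ?_)
      rw [← h5, ← h6]
      exact h1.1 (ω.mono (disj_le _ _) h3)
    refine gen_local (disj (e p)) (htop p) fun q => ?_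
    refine gen_local (disj (e p')) (htop p') fun q' => ?_
    rcases trichotomous_of WellOrderingRel q q' with h5 | h5 | h5
    · filter_upwards [key p p' q q' h5] with ω h1 h2 h3 h4 h6
      exact (h1 h3 h2 h4 h6).elim
    · subst h5
      refine Eventually.of_forall fun ω h1 h2 h3 h4 => ?_
      rw [hG2 p q ω h2, hG2 p' q ω h1]
    · filter_upwards [key p' p q' q h5] with ω h1 h2 h3 h4 h6
      exact (h1 h2 h3 h4.symm h6.symm).elim
  · rw [hOp F F' hF hF']
    set p : α := ⟨(F, F'), hF, hF'⟩ with hp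
    obtain ⟨w', hw'⟩ := mixW α (disj (e p)) w (pairwise_disj _)
    refine ⟨w', gen_local (disj (e p)) (htop p) fun q => ?_⟩
    filter_upwards [hw' q, he p q, hw q] with ω h1 h2 h3 h4
    rw [hG2 p q ω h4]
    obtain ⟨h5, h6⟩ := h2.1 (ω.mono (disj_le _ _) h4)
    change F ω = q.1.1 ω at h5
    change F' ω = q.1.2 ω at h6
    rw [h5, h6]
    exact hRel ω _ _ _ _ _ (h1 h4) h3

end Pool.Agent.MP_b00c97_gt.RN
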