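import Pool.Agent.MP_b00c97_gt.RN.Basic

/-! # MP_b00c97_gt, part RN, block RM: the maximum principle -/

set_option autoImplicit false

open Set MeasureTheory Filter

namespace Pool.Agent.MP_b00c97_gt.RN

open Pool.Agent.BVM Pool.Agent.MP9096b7 Pool.Agent.MP_b00c97_gt.Lav

universe u v

variable {B : Type} [CompleteBooleanAlgebra B] {c : B} {Γ : Type u} [Group Γ]

/-- Every family has a disjoint refinement with the same supremum. -/
theorem rm_disj {ι : Type v} (b : ι → B) : ∃ C : ι → B, (∀ i, C i ≤ b i) ∧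
    (⨆ i, b i ≤ ⨆ i, C i) ∧ Pairwise (fun i j => Disjoint (C i) (C j)) := by
  classical
  let r : ι → ι → Prop := WellOrderingRel
  have hwf : WellFounded r := WellOrderingRel.isWellOrder.wf
  let c : ι → B := fun i => b i ⊓ (⨆ j : {j // r j i}, b j.1)ᶜ
  have hcb : ∀ i, c i ≤ b i := fun i => inf_le_left
  have hbc : ∀ i, b i ≤ ⨆ i, c i := by
    intro i
    induction i using hwf.induction with
    | _ i ih =>
      have h2 : b i ≤ c i ⊔ ⨆ j : {j // r j i}, b j.1 := by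
        have h3 : c i ⊔ (⨆ j : {j // r j i}, b j.1) = b i ⊔ ⨆ j : {j // r j i}, b j.1 := by
          show b i ⊓ (⨆ j : {j // r j i}, b j.1)ᶜ ⊔ (⨆ j : {j // r j i}, b j.1) = _
          rw [sup_inf_right, compl_sup_eq_top, inf_top_eq]
        rw [h3]; exact le_sup_left
      exact h2.trans (sup_le (le_iSup c i) (iSup_le fun j => ih j.1 j.2))
  have key : ∀ i j, r i j → Disjoint (c i) (c j) := by
    intro i j hij
    have h1 : c i ≤ ⨆ l : {l // r l j}, b l.1 :=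
      (hcb i).trans (le_iSup (fun l : {l // r l j} => b l.1) ⟨i, hij⟩)
    exact (disjoint_compl_right (a := ⨆ l : {l // r l j}, b l.1)).mono h1 inf_le_right
  refine ⟨c, hcb, iSup_le hbc, fun i j hij => ?_⟩
  rcases trichotomous_of WellOrderingRel i j with h5 | h5 | h5
  · exact key i j h5
  · exact (hij h5).elim
  · exact (key j i h5).symm

theorem rm_uniq {ι : Type v} {C : ι → B} (hC : Pairwise (fun i j => Disjoint (C i) (C j)))
    {ω : Ult B} {i j : ι} (hi : ω.V (C i)) (hj : ω.V (C j)) : i = j := by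
  by_contra hij
  have h1 : C i ⊓ C j = ⊥ := disjoint_iff.1 (hC hij)
  have h2 : ω.V (C i ⊓ C j) := (ω.inf' _ _).2 ⟨hi, hj⟩
  rw [h1] at h2
  exact ω.bot h2

/-- Mixing of reals. -/
theorem rm_mixR {ι : Type v} {C : ι → B} (hC : Pairwise (fun i j => Disjoint (C i) (C j)))
    (G : ι → Ult B → ℕ → ℕ) (hG : ∀ i, IsR (G i)) (d : ℕ → ℕ) :
    ∃ F : Ult B → ℕ → ℕ, IsR F ∧ (∀ i ω, ω.V (C i) → F ω = G i ω) ∧
      ∀ ω, (∀ i, ¬ ω.V (C i)) → F ω = d := by
  classical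
  let F : Ult B → ℕ → ℕ := fun ω => if hω : ∃ i, ω.V (C i) then G hω.choose ω else d
  have hF : ∀ i ω, ω.V (C i) → F ω = G i ω := by
    intro i ω hi
    have hω : ∃ i, ω.V (C i) := ⟨i, hi⟩
    show (if hω : ∃ i, ω.V (C i) then G hω.choose ω else d) = _
    rw [dif_pos hω, rm_uniq hC hω.choose_spec hi]
  have hF' : ∀ ω, (∀ i, ¬ ω.V (C i)) → F ω = d := by
    intro ω hω
    show (if hω : ∃ i, ω.V (C i) then G hω.choose ω else d) = _
    rw [dif_neg (not_exists.2 hω)]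
  refine ⟨F, ?_, hF, hF'⟩
  refine meas_real.2 fun n k => ?_
  have h2 : ∀ i : ι, ∃ b : B, ∀ᶠ ω in genN B, (G i ω n = k ↔ ω.V b) := by
    intro i
    exact genM_iff.1 (meas_real.1 (hG i) n k)
  choose b hb using h2
  refine genM_iff.2 ⟨(⨆ i, C i ⊓ b i) ⊔ (if d n = k then (⨆ i, C i)ᶜ else ⊥), ?_⟩
  refine gen_local (fun o : Option ι => o.elim ((⨆ i, C i)ᶜ) C) ?_ fun o => ?_
  · rw [iSup_option]
    change (⨆ i, C i)ᶜ ⊔ ⨆ i, C i = ⊤
    exact compl_sup_eq_top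
  · cases o with
    | none =>
      filter_upwards [gen_iSup C, gen_iSup fun i => C i ⊓ b i] with ω h1 h3 h4
      have h5 : ω.V (⨆ i, C i)ᶜ := h4
      have h5' := h5
      rw [ω.compl', h1] at h5
      have h6 : ∀ i, ¬ ω.V (C i) := not_exists.1 h5
      show F ω n = k ↔ _
      rw [hF' ω h6]
      constructor
      · intro h7
        refine ω.mono le_sup_right ?_
        rw [if_pos h7]; exact h5'
      · intro h7
        by_contra h8
        rw [if_neg h8, sup_bot_eq, h3] at h7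
        obtain ⟨i, hi⟩ := h7
        exact h6 i ((ω.inf' _ _).1 hi).1
    | some i =>
      filter_upwards [hb i, gen_iSup (fun i => C i ⊓ b i), gen_iSup C] with ω h4 h5 h5' h6
      have h6' : ω.V (C i) := h6
      show F ω n = k ↔ _
      rw [hF i ω h6', h4]
      constructor
      · intro h7
        refine ω.mono le_sup_left (h5.2 ⟨i, (ω.inf' _ _).2 ⟨h6', h7⟩⟩)
      · intro h7
        have h8 : ω.V (⨆ i, C i ⊓ b i) := by
          by_contra h9
          have h10 : ω.V (if d n = k then (⨆ i, C i)ᶜ else ⊥) := by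
            by_contra h11
            have h12 : ω.V ((⨆ i, C i ⊓ b i)ᶜ ⊓ (if d n = k then (⨆ i, C i)ᶜ else ⊥)ᶜ) :=
              (ω.inf' _ _).2 ⟨(ω.compl' _).2 h9, (ω.compl' _).2 h11⟩
            rw [← compl_sup, ω.compl'] at h12
            exact h12 h7
          split_ifs at h10 with h11
          · rw [ω.compl', h5'] at h10
            exact h10 ⟨i, h6'⟩
          · exact ω.bot h10
        obtain ⟨j, hj⟩ := h5.1 h8
        rw [ω.inf'] at hj
        rw [rm_uniq hC h6' hj.1]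
        exact hj.2

/-- RM (file RN/Max.lean): the maximum principle for the elements of `Γ`. -/
theorem RSys.exists_max (S : RSys B c Γ) (P : Γ → Ult B → Prop)
    (hm : ∀ v, MeasurableSet[genM B] {ω | P v ω})
    (hZ : ∀ v v' ω, ω.V c → v⁻¹ * v' ∈ S.Z ω → P v ω → P v' ω) :
    ∃ v₀ : Γ, ∀ v, AE c fun ω => P v ω → P v₀ ω := by
  classical
  have h1 : ∀ v, ∃ b : B, ∀ᶠ ω in genN B, (P v ω ↔ ω.V b) := fun v => genM_iff.1 (hm v)
  choose bv hbv using h1
  let I : Type := {b : B // ∃ v, bv v = b}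
  have h2 : ∀ i : I, ∃ v, bv v = i.1 := fun i => i.2
  choose g hg using h2
  obtain ⟨C, hC1, hC2, hC3⟩ := rm_disj (fun i : I => i.1)
  obtain ⟨v₀, hv₀⟩ := S.mix I C g hC3
  refine ⟨v₀, fun v => ?_⟩
  have h3 : ∀ᶠ ω in genN B, ω.V c → P v ω → P v₀ ω := by
    refine gen_local (fun o : Option I => o.elim ((bv v)ᶜ) C) ?_ fun o => ?_
    · rw [iSup_option]
      change (bv v)ᶜ ⊔ ⨆ i, C i = ⊤
      rw [eq_top_iff]
      calc (⊤ : B) = (bv v)ᶜ ⊔ bv v := by simp
        _ ≤ _ := sup_le_sup_left ((le_iSup (fun i : I => i.1) ⟨bv v, v, rfl⟩).trans hC2) _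
    · cases o with
      | none =>
        filter_upwards [hbv v] with ω h4 h5 h6 h7
        have h8 : ω.V (bv v)ᶜ := h5
        rw [ω.compl'] at h8
        exact (h8 (h4.1 h7)).elim
      | some i =>
        filter_upwards [hbv (g i)] with ω h4 h5 h6 h7
        have h8 : ω.V (C i) := h5
        refine hZ (g i) v₀ ω h6 (hv₀ i ω h8 h6) (h4.2 ?_)
        rw [hg i]
        exact ω.mono (hC1 i) h8
  exact h3

/-- RM: the maximum principle for pairs of reals. -/
theorem exists_max_real (P : (Ult B → ℕ → ℕ) → (Ult B → ℕ → ℕ) → Ult B → Prop)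
    (hm : ∀ g s, IsR g → IsR s → MeasurableSet[genM B] {ω | P g s ω})
    (hloc : ∀ g s g' s', IsR g → IsR s → IsR g' → IsR s' →
      ∀ᶠ ω in genN B, g ω = g' ω → s ω = s' ω → P g s ω → P g' s' ω)
    (Q : (ℕ → ℕ) → Prop) (s₀ : ℕ → ℕ) (hQ : Q s₀) :
    ∃ g₀ s₀ : Ult B → ℕ → ℕ, IsR g₀ ∧ IsR s₀ ∧ (∀ ω, Q (s₀ ω)) ∧
      ∀ g s, IsR g → IsR s → (∀ ω, Q (s ω)) → ∀ᶠ ω in genN B, P g s ω → P g₀ s₀ ω := by
  classical
  let W : Type := {p : (Ult B → ℕ → ℕ) × (Ult B → ℕ → ℕ) // IsR p.1 ∧ IsR p.2 ∧ ∀ ω, Q (p.2 ω)}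
  have h1 : ∀ w : W, ∃ b : B, ∀ᶠ ω in genN B, (P w.1.1 w.1.2 ω ↔ ω.V b) := fun w =>
    genM_iff.1 (hm _ _ w.2.1 w.2.2.1)
  choose bv hbv using h1
  obtain ⟨C, hC1, hC2, hC3⟩ := rm_disj bv
  obtain ⟨g₀, hg1, hg2, -⟩ := rm_mixR hC3 (fun w : W => w.1.1) (fun w => w.2.1) s₀
  obtain ⟨t₀, ht1, ht2, ht3⟩ := rm_mixR hC3 (fun w : W => w.1.2) (fun w => w.2.2.1) s₀
  refine ⟨g₀, t₀, hg1, ht1, fun ω => ?_, fun g s hg hs hQs => ?_⟩
  · by_cases h : ∃ w, ω.V (C w)
    · obtain ⟨w, hw⟩ := h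
      rw [ht2 w ω hw]
      exact w.2.2.2 ω
    · rw [ht3 ω (not_exists.1 h)]
      exact hQ
  · let w : W := ⟨(g, s), hg, hs, hQs⟩
    refine gen_local (fun o : Option W => o.elim ((bv w)ᶜ) C) ?_ fun o => ?_
    · rw [iSup_option]
      change (bv w)ᶜ ⊔ ⨆ i, C i = ⊤
      rw [eq_top_iff]
      calc (⊤ : B) = (bv w)ᶜ ⊔ bv w := by simp
        _ ≤ _ := sup_le_sup_left ((le_iSup bv w).trans hC2) _
    · cases o with
      | none =>
        filter_upwards [hbv w] with ω h4 h5 h7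
        have h8 : ω.V (bv w)ᶜ := h5
        rw [ω.compl'] at h8
        exact (h8 (h4.1 h7)).elim
      | some i =>
        filter_upwards [hbv i, hloc i.1.1 i.1.2 g₀ t₀ i.2.1 i.2.2.1 hg1 ht1] with ω h4 h6 h5 h7
        have h8 : ω.V (C i) := h5
        exact h6 (hg2 i ω h8).symm (ht2 i ω h8).symm (h4.2 (ω.mono (hC1 i) h8))

end Pool.Agent.MP_b00c97_gt.RN
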