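import Pool.Agent.MP_b00c97_gt.RN.Basic
import Pool.Agent.MP_b00c97_gt.LN.N3

/-!
# MP_b00c97_gt, part RN: random coarsening; from non-hitting to two-sided (block R3)
-/

set_option autoImplicit false

open Set MeasureTheory Filter

namespace Pool.Agent.MP_b00c97_gt.RN

open Pool.Agent.BVM Pool.Agent.MP9096b7
open Pool.Agent.MP_b00c97_gt.Lav (meas_sel meas_sel_set meas_all meas_ex meas_and meas_or meas_not
  meas_imp meas_const meas_rel meas_rel1 meas_real meas_ev meas_eq)
open Pool.Agent.MP_b00c97_gt.LN (exists_between)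

universe u

variable {B : Type} [CompleteBooleanAlgebra B] {c : B} {Γ : Type u} [Group Γ]

/-- Random coarsening of the windows. -/
theorem RSys.exists_coarsen (S : RSys B c Γ) (cc : Ult B → ℕ → ℕ) (hcm : IsR cc)
    (hc : ∀ ω, StrictMono (cc ω)) :
    ∃ T : RSys B c Γ, (∀ ω i, T.V ω i = S.V ω (cc ω i)) ∧ ∀ ω i, T.E ω i = S.E ω (cc ω i) := by
  have hcs : ∀ ω i, cc ω i < cc ω (i + 1) := fun ω i => hc ω (Nat.lt_succ_self i)
  have hcr := meas_real.1 hcm
  refine ⟨{ Z := S.Z
            V := fun ω i => S.V ω (cc ω i)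
            E := fun ω i => S.E ω (cc ω i)
            D := S.D
            D_ctbl := S.D_ctbl
            E_sub := fun ω i d hd => S.E_sub ω _ d hd
            meas_V := fun g i => meas_sel_set (P := fun j ω => g ∈ S.V ω j) (hcr i)
              fun j => S.meas_V g j
            meas_E := fun g i => meas_sel_set (P := fun j ω => g ∈ S.E ω j) (hcr i)
              fun j => S.meas_E g j
            Z_conj := S.Z_conj
            V_Z := fun ω hω i v hv z hz => S.V_Z ω hω _ v hv z hz
            one_V := fun ω hω i => S.one_V ω hω _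
            inv_V := fun ω hω i v hv => S.inv_V ω hω _ v hv
            mul_V := fun ω hω i v hv w hw => mul_V' hω (hcs ω i) (hcs ω i) hv hw
            one_E := fun ω hω i => S.one_E ω hω _
            inv_E := fun ω hω i d hd => S.inv_E ω hω _ d hd
            mul_E := fun ω hω i x hx y hy => mul_E' hω (hcs ω i) (hcs ω i) hx hy
            conj := fun ω hω i d hd v hv => conj' hω (hcs ω i) (hcs ω i) hd hv
            small := ?_
            big := ?_
            mix := S.mix }, fun ω i => rfl, fun ω i => rfl⟩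
  · intro g
    refine (S.small g).mono fun ω hω hg => ?_
    rw [frequently_atTop]
    intro i
    obtain ⟨j, hj, h⟩ := hg.forall_exists_of_atTop (cc ω i)
    obtain ⟨m, him, hm, hm'⟩ := exists_between (cc ω) (hc ω) hj
    exact ⟨m, him, In.mono (S := S) hω h (by omega) hm⟩
  · intro J hJ hJs
    have hm : IsR fun ω n => cc ω (J ω n) := meas_real.2 fun n k =>
      meas_sel_set (P := fun j ω => cc ω j = k) (meas_real.1 hJ n) fun j => hcr j k
    obtain ⟨z, hz⟩ := S.big (fun ω n => cc ω (J ω n)) hm fun ω => (hc ω).comp (hJs ω)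
    refine ⟨z, hz.mono fun ω hω h k hk => h k ?_⟩
    refine In.mono (S := S) hω hk le_rfl ?_
    have := hcs ω (J ω k)
    omega

/-- R3.  If one of the families is not hitting some random coarsening is two-sided. -/
theorem RSys.exists_twoSided (S : RSys B c Γ) (g s : Ult B → ℕ → ℕ) (hg : IsR g) (hs : IsR s)
    (hinf : ∀ ω, InfS (s ω))
    (h : ∀ v : Γ, AE c fun ω => ∃ i, {a | S.Bad ω (g ω) v a ∧ s ω (Nat.pair i a) = 0}.Finite) :
    ∃ T : RSys B c Γ, T.TwoSided := by
  classical
  have hgr := meas_real.1 hg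
  have hsr := meas_real.1 hs
  -- the coarsening
  let P : Ult B → ℕ → ℕ → ℕ → Prop := fun ω m x y =>
    x < y ∧ (∀ i, i ≤ m → ∃ a, s ω (Nat.pair i a) = 0 ∧ x + 5 ≤ a ∧ a < y) ∧
      ∀ n, n ≤ x + 5 → g ω n ≤ y
  have hPm : ∀ m x y, MeasurableSet[genM B] {ω | P ω m x y} := by
    intro m x y
    refine meas_and (meas_const _) (meas_and (meas_all fun i => meas_imp (meas_const _)
      (meas_ex fun a => meas_and (hsr _ _) (meas_const _))) (meas_all fun n =>
      meas_imp (meas_const _) (meas_rel1 (hgr n) fun k => k ≤ y)))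
  have hnext : ∀ ω m x, ∃ y, P ω m x y := by
    intro ω m x
    have h1 : ∀ i, ∃ a, s ω (Nat.pair i a) = 0 ∧ x + 5 ≤ a := fun i => by
      obtain ⟨a, ha, h⟩ := (hinf ω i).exists_gt (x + 5)
      exact ⟨a, ha, h.le⟩
    choose a ha ha' using h1
    refine ⟨x + 1 + ∑ i ∈ Finset.range (m + 1), (a i + 1) + ∑ n ∈ Finset.range (x + 6), g ω n,
      by omega, fun i hi => ⟨a i, ha i, ha' i, ?_⟩, fun n hn => ?_⟩
    · have : a i + 1 ≤ ∑ i ∈ Finset.range (m + 1), (a i + 1) :=
        Finset.single_le_sum (f := fun i => a i + 1) (fun _ _ => Nat.zero_le _)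
          (Finset.mem_range.2 (by omega))
      omega
    · have : g ω n ≤ ∑ n ∈ Finset.range (x + 6), g ω n :=
        Finset.single_le_sum (f := g ω) (fun _ _ => Nat.zero_le _) (Finset.mem_range.2 (by omega))
      omega
  let nx : Ult B → ℕ → ℕ → ℕ := fun ω m x => Nat.find (hnext ω m x)
  have hnx : ∀ ω m x, P ω m x (nx ω m x) := fun ω m x => Nat.find_spec (hnext ω m x)
  have hnxm : ∀ m x k, MeasurableSet[genM B] {ω | nx ω m x = k} := by
    intro m x k
    refine meas_ev _ (meas_and (hPm m x k) (meas_all fun j : ℕ => meas_imp (meas_const (j < k))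
      (meas_not (hPm m x j)))) fun ω => ?_
    simp only [nx, mem_ofPred_eq]
    exact Nat.find_eq_iff (hnext ω m x)
  let cc : Ult B → ℕ → ℕ := fun ω m => Nat.rec 0 (fun m x => nx ω m x) m
  have hcs : ∀ ω m, cc ω (m + 1) = nx ω m (cc ω m) := fun ω m => rfl
  have hc : ∀ ω, StrictMono (cc ω) := fun ω => strictMono_nat_of_lt_succ fun m => by
    rw [hcs]
    exact (hnx ω m _).1
  have hcm : IsR cc := by
    refine meas_real.2 fun n => ?_
    induction n with
    | zero => intro k; exact meas_const (0 = k)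
    | succ m ih =>
      intro k
      exact meas_sel_set (P := fun x ω => nx ω m x = k) ih fun x => hnxm m x k
  obtain ⟨T, hTV, hTE⟩ := S.exists_coarsen cc hcm hc
  have hTin : ∀ (ω : Ult B) (v : Γ) (k m : ℕ), T.In ω v k m ↔ S.In ω v (cc ω k) (cc ω m) := by
    intro ω v k m
    unfold RSys.In
    rw [hTV, hTE]
  refine ⟨T, fun v => ?_⟩
  refine (h v).mono fun ω hω hfin => ?_
  obtain ⟨i, hfin⟩ := hfin
  obtain ⟨B', hB'⟩ := hfin.bddAbove
  have hiB : ∀ a, B' + 1 ≤ a → s ω (Nat.pair i a) = 0 → ¬ S.Bad ω (g ω) v a := by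
    intro a ha hsa hbad
    have : a ≤ B' := hB' ⟨hbad, hsa⟩
    omega
  have hcc := hc ω
  filter_upwards [eventually_ge_atTop (max i (B' + 1))] with m hm κ hκ hin
  have him : i ≤ m := le_trans (le_max_left _ _) hm
  have hBm : B' + 1 ≤ m := le_trans (le_max_right _ _) hm
  have hmc : m ≤ cc ω m := hcc.id_le m
  obtain ⟨a, ha, ha1, ha2⟩ := (hnx ω m (cc ω m)).2.1 i him
  rw [← hcs] at ha2
  have hnb := hiB a (by omega) ha
  rw [hTin] at hin
  have hc1 : cc ω (m + 1) < cc ω (m + 2) := hcc (Nat.lt_succ_self (m + 1))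
  have hc2 : cc ω (m + 2) ≤ cc ω κ := hcc.monotone hκ
  unfold RSys.Bad at hnb
  push Not at hnb
  obtain ⟨n, hn1, hn2, hn3⟩ := hnb (cc ω κ) (by omega) (In.mono hω hin le_rfl (by omega))
  obtain ⟨m', hm', hm1, hm2⟩ := exists_between (cc ω) hcc (i := m) (j := n - 2) (by omega)
  have hlt : cc ω m' < cc ω κ := by omega
  have hm'κ : m' < κ := hcc.lt_iff_lt.1 hlt
  have hgn : g ω n ≤ cc ω (m' + 2) := by
    have h9 := (hnx ω (m' + 1) (cc ω (m' + 1))).2.2 n (by omega)
    exact h9
  refine ⟨m' + 1, by omega, by omega, ?_⟩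
  rw [hTin]
  have hc3 : cc ω (m' + 2) < cc ω (m' + 1 + 2) := hcc (Nat.lt_succ_self (m' + 2))
  refine In.mono hω hn3 (by omega) ?_
  simpa using hm1

end Pool.Agent.MP_b00c97_gt.RN
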