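import Pool.Agent.MP_b00c97_gt.RN.Choice

/-! # MP_b00c97_gt, part RN, block R4: not all the families of bad windows are hitting -/

set_option autoImplicit false

open Set MeasureTheory Filter

namespace Pool.Agent.MP_b00c97_gt.RN

open Pool.Agent.BVM Pool.Agent.MP9096b7
open Pool.Agent.MP_b00c97_gt.Lav (LProp meas_sel meas_sel_set meas_fun meas_all meas_ex meas_and
  meas_or meas_not meas_imp meas_const meas_rel meas_rel1 meas_real meas_ev meas_eq meas_of_eq)

universe u v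

variable {B : Type} [CompleteBooleanAlgebra B] {c : B} {Γ : Type u} [Group Γ]

namespace RSys

variable (S : RSys B c Γ)

/-- The value of the finite set `E ω m` is a countable case distinction. -/
theorem r4_meas_E (m : ℕ) (F : Finset Γ) : MeasurableSet[genM B] {ω | S.E ω m = F} := by
  classical
  have : {ω | S.E ω m = F} =
      (⋂ g ∈ S.D, {ω | g ∈ S.E ω m ↔ g ∈ F}) ∩ {_ω : Ult B | ∀ g ∈ F, g ∈ S.D} := by
    ext ω
    simp only [mem_ofPred_eq, mem_inter_iff, mem_iInter]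
    constructor
    · rintro rfl
      exact ⟨fun g _ => Iff.rfl, fun g hg => S.E_sub ω m g hg⟩
    · rintro ⟨h1, h2⟩
      ext g
      constructor
      · intro hg
        exact (h1 g (S.E_sub ω m g hg)).1 hg
      · intro hg
        exact (h1 g (h2 g hg)).2 hg
  rw [this]
  refine MeasurableSet.inter (MeasurableSet.biInter S.D_ctbl fun g _ => ?_) (meas_const _)
  by_cases hg : g ∈ F
  · simp only [hg, iff_true]
    exact S.meas_E g m
  · simp only [hg, iff_false]
    exact (S.meas_E g m).compl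

theorem r4_sel_E (m : ℕ) {P : Finset Γ → Ult B → Prop}
    (hP : ∀ F, MeasurableSet[genM B] {ω | P F ω}) :
    MeasurableSet[genM B] {ω | P (S.E ω m) ω} := by
  classical
  have : Countable S.D := S.D_ctbl.to_subtype
  have key : {ω | P (S.E ω m) ω} = ⋃ F : Finset S.D,
      {ω | S.E ω m = F.map (Function.Embedding.subtype _)} ∩
        {ω | P (F.map (Function.Embedding.subtype _)) ω} := by
    ext ω
    simp only [mem_ofPred_eq, mem_iUnion, mem_inter_iff]
    constructor
    · intro h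
      have h1 : ((S.E ω m).subtype (· ∈ S.D)).map (Function.Embedding.subtype _) = S.E ω m := by
        rw [Finset.subtype_map]
        exact Finset.filter_true_of_mem fun g hg => S.E_sub ω m g hg
      exact ⟨(S.E ω m).subtype (· ∈ S.D), h1.symm, by rw [h1]; exact h⟩
    · rintro ⟨F, h1, h2⟩
      rw [h1]
      exact h2
  rw [key]
  exact MeasurableSet.iUnion fun F => (S.r4_meas_E m _).inter (hP _)

theorem r4_meas_card (m k : ℕ) : MeasurableSet[genM B] {ω | (S.E ω m).card = k} :=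
  S.r4_sel_E m (P := fun F _ => F.card = k) fun F => meas_const _

theorem r4_sInf {P : ℕ → Ult B → Prop} (hP : ∀ k, MeasurableSet[genM B] {ω | P k ω}) (k : ℕ) :
    MeasurableSet[genM B] {ω | sInf {k | P k ω} = k} := by
  have h : ∀ ω, sInf {k | P k ω} = k ↔
      (P k ω ∧ ∀ j, j < k → ¬ P j ω) ∨ ((∀ j, ¬ P j ω) ∧ k = 0) := by
    intro ω
    constructor
    · intro h
      by_cases hex : ∃ j, P j ω
      · left
        have h1 : sInf {k | P k ω} ∈ {k | P k ω} := Nat.sInf_mem hex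
        rw [h] at h1
        refine ⟨h1, fun j hj hPj => ?_⟩
        have := Nat.sInf_le (s := {k | P k ω}) hPj
        omega
      · right
        push Not at hex
        refine ⟨hex, ?_⟩
        have : {k | P k ω} = ∅ := by
          ext j
          simp [hex j]
        rw [this, Nat.sInf_empty] at h
        exact h.symm
    · rintro (⟨h1, h2⟩ | ⟨h1, rfl⟩)
      · apply le_antisymm
        · exact Nat.sInf_le h1
        · by_contra hlt
          have h3 : sInf {k | P k ω} ∈ {k | P k ω} := Nat.sInf_mem ⟨k, h1⟩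
          exact h2 _ (not_le.1 hlt) h3
      · have : {k | P k ω} = ∅ := by
          ext j
          simp [h1 j]
        rw [this, Nat.sInf_empty]
  exact meas_ev {ω | (P k ω ∧ ∀ j, j < k → ¬ P j ω) ∨ ((∀ j, ¬ P j ω) ∧ k = 0)}
    (meas_or (meas_and (hP k) (meas_all fun j => meas_imp (meas_const (j < k))
    (meas_not (hP j)))) (meas_and (meas_all fun j => meas_not (hP j)) (meas_const (k = 0)))) h

theorem r4_meas_lev (g : Γ) (m k : ℕ) : MeasurableSet[genM B] {ω | S.lev ω g m = k} :=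
  r4_sInf (P := fun k ω => S.In ω g k m) (fun k => S.meas_In g k m) k

theorem r4_meas_InfS {s : Ult B → ℕ → ℕ} (hs : IsR s) : MeasurableSet[genM B] {ω | InfS (s ω)} := by
  have h : ∀ ω, InfS (s ω) ↔ ∀ i N : ℕ, ∃ n, N ≤ n ∧ s ω (Nat.pair i n) = 0 := by
    intro ω
    refine forall_congr' fun i => ?_
    rw [← Nat.frequently_atTop_iff_infinite, frequently_atTop]
  exact meas_ev {ω | ∀ i N : ℕ, ∃ n, N ≤ n ∧ s ω (Nat.pair i n) = 0}
    (meas_all fun i => meas_all fun N => meas_ex fun n =>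
      meas_and (meas_const (N ≤ n)) (meas_real.1 hs _ _)) h

/-- The relation of block R4. -/
def R4Rel (ω : Ult B) (g s H : ℕ → ℕ) (v : Γ) : Prop :=
  ω.V c → InfS s → (∀ i, {a | H (Nat.pair 0 a) = 0 ∧ s (Nat.pair i a) = 0}.Infinite) ∧
    ∃ κ : ℕ → ℕ, (∀ a, H (Nat.pair 0 a) = 0 → a + 2 ≤ κ a ∧ S.In ω v⁻¹ (κ a) (a + 2) ∧
        ∀ n, a ≤ n + 1 → n ≤ κ a → ¬ S.In ω v (g n) (n - 2)) ∧
      (∀ a n j, n ≤ κ a → j < (S.E ω (n + 1)).card →
        Nat.pair (n + 1) j ≤ H (Nat.pair 1 a) ∧ S.lev ω v n ≤ H (Nat.pair 1 a))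

theorem r4_rel_congr (ω : Ult B) (g s H : ℕ → ℕ) (v v' : Γ) (hz : ω.V c → v⁻¹ * v' ∈ S.Z ω)
    (h : S.R4Rel ω g s H v) : S.R4Rel ω g s H v' := by
  intro hω hs
  obtain ⟨h1, κ, h2, h3⟩ := h hω hs
  have hz := hz hω
  have hlev : ∀ n, S.lev ω v' n = S.lev ω v n := by
    intro n
    unfold lev
    congr 1
    ext k
    exact ⟨fun h => In.congr hω h (Z_symm hz), fun h => In.congr hω h hz⟩
  refine ⟨h1, κ, fun a ha => ?_, fun a n j hn hj => ?_⟩
  · obtain ⟨e1, e2, e3⟩ := h2 a ha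
    exact ⟨e1, In.congr hω e2 (Z_inv hω hz), fun n hn hn' h4 =>
      e3 n hn hn' (In.congr hω h4 (Z_symm hz))⟩
  · rw [hlev]
    exact h3 a n j hn hj

/-- The bad `k` for a window. -/
noncomputable def r4κ (g : Ult B → ℕ → ℕ) (v : Γ) (ω : Ult B) (a : ℕ) : ℕ :=
  sInf {k | a + 2 ≤ k ∧ S.In ω v⁻¹ k (a + 2) ∧ ∀ n, a ≤ n + 1 → n ≤ k → ¬ S.In ω v (g ω n) (n - 2)}

open Classical in
/-- The coded pair. -/
noncomputable def r4H (g : Ult B → ℕ → ℕ) (v : Γ) (ω : Ult B) (p : ℕ) : ℕ :=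
  if (Nat.unpair p).1 = 0 then (if S.Bad ω (g ω) v (Nat.unpair p).2 then 0 else 1)
  else ∑ n ∈ Finset.range (S.r4κ g v ω (Nat.unpair p).2 + 1),
      (S.lev ω v n + ∑ j ∈ Finset.range (S.E ω (n + 1)).card, Nat.pair (n + 1) j)

theorem r4_meas_κ {g : Ult B → ℕ → ℕ} (hg : IsR g) (v : Γ) (a k : ℕ) :
    MeasurableSet[genM B] {ω | S.r4κ g v ω a = k} :=
  r4_sInf (P := fun k ω => a + 2 ≤ k ∧ S.In ω v⁻¹ k (a + 2) ∧
      ∀ n, a ≤ n + 1 → n ≤ k → ¬ S.In ω v (g ω n) (n - 2))
    (fun k => meas_and (meas_const _) (meas_and (S.meas_In _ _ _) (meas_all fun n =>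
      meas_imp (meas_const _) (meas_imp (meas_const _) (meas_not
        (S.meas_In' v (meas_real.1 hg n) fun i => meas_const _)))))) k

theorem r4_isR_H {g : Ult B → ℕ → ℕ} (hg : IsR g) (v : Γ) : IsR (S.r4H g v) := by
  classical
  letI : MeasurableSpace (Ult B) := genM B
  refine measurable_pi_iff.2 fun p => ?_
  unfold r4H
  by_cases hp : (Nat.unpair p).1 = 0
  · simp only [hp, if_true]
    exact Measurable.ite (S.meas_Bad v hg _) measurable_const measurable_const
  · simp only [hp, if_false]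
    refine meas_sel (f := fun ω => S.r4κ g v ω (Nat.unpair p).2)
      (g := fun k ω => ∑ n ∈ Finset.range (k + 1),
        (S.lev ω v n + ∑ j ∈ Finset.range (S.E ω (n + 1)).card, Nat.pair (n + 1) j))
      (S.r4_meas_κ hg v _) fun k => ?_
    refine Finset.measurable_sum _ fun n _ => ?_
    refine Measurable.add (meas_of_eq (S.r4_meas_lev v n)) ?_
    exact meas_fun (f := fun ω => (S.E ω (n + 1)).card) (S.r4_meas_card (n + 1))
      fun k => ∑ j ∈ Finset.range k, Nat.pair (n + 1) j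

theorem r4_rel_of {g s : Ult B → ℕ → ℕ} {v : Γ} {ω : Ult B}
    (h : ∀ i, {a | S.Bad ω (g ω) v a ∧ s ω (Nat.pair i a) = 0}.Infinite) :
    S.R4Rel ω (g ω) (s ω) (S.r4H g v ω) v := by
  classical
  intro _ _
  have hA : ∀ a, S.r4H g v ω (Nat.pair 0 a) = 0 ↔ S.Bad ω (g ω) v a := by
    intro a
    unfold r4H
    simp only [Nat.unpair_pair, if_true]
    split_ifs with hb
    · simp [hb]
    · simp [hb]
  have hf : ∀ a, S.r4H g v ω (Nat.pair 1 a) = ∑ n ∈ Finset.range (S.r4κ g v ω a + 1),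
      (S.lev ω v n + ∑ j ∈ Finset.range (S.E ω (n + 1)).card, Nat.pair (n + 1) j) := by
    intro a
    unfold r4H
    simp only [Nat.unpair_pair, one_ne_zero, if_false]
  refine ⟨fun i => ?_, S.r4κ g v ω, fun a ha => ?_, fun a n j hn hj => ?_⟩
  · simp only [hA]
    exact h i
  · obtain ⟨k, hk⟩ := (hA a).1 ha
    exact Nat.sInf_mem (s := {k | a + 2 ≤ k ∧ S.In ω v⁻¹ k (a + 2) ∧
      ∀ n, a ≤ n + 1 → n ≤ k → ¬ S.In ω v (g ω n) (n - 2)}) ⟨k, hk⟩
  · rw [hf]
    have h1 : S.lev ω v n + ∑ j ∈ Finset.range (S.E ω (n + 1)).card, Nat.pair (n + 1) j ≤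
        ∑ n ∈ Finset.range (S.r4κ g v ω a + 1),
          (S.lev ω v n + ∑ j ∈ Finset.range (S.E ω (n + 1)).card, Nat.pair (n + 1) j) :=
      Finset.single_le_sum
        (f := fun n => S.lev ω v n + ∑ j ∈ Finset.range (S.E ω (n + 1)).card, Nat.pair (n + 1) j)
        (fun _ _ => Nat.zero_le _) (Finset.mem_range.2 (by omega))
    have h2 : Nat.pair (n + 1) j ≤
        ∑ j ∈ Finset.range (S.E ω (n + 1)).card, Nat.pair (n + 1) j :=
      Finset.single_le_sum (f := fun j => Nat.pair (n + 1) j)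
        (fun _ _ => Nat.zero_le _) (Finset.mem_range.2 hj)
    constructor <;> omega

/-- An enumeration of a finite set. -/
noncomputable def r4en (E : Finset Γ) (j : ℕ) : Γ := E.toList.getD j 1

omit [Group Γ] in
theorem r4_mem_en [Group Γ] (E : Finset Γ) {e : Γ} (he : e ∈ E) :
    ∃ j < E.card, r4en E j = e := by
  classical
  obtain ⟨j, hj, hje⟩ := List.mem_iff_getElem.1 (Finset.mem_toList.2 he)
  refine ⟨j, by simpa using hj, ?_⟩
  rw [r4en, List.getD_eq_getElem _ _ hj, hje]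

/-- R4: not all the families of bad windows are hitting. -/
theorem not_all_hitting (hL : LProp B) (S : RSys B c Γ) (hc : c ≠ ⊥)
    (h : ∀ g s : Ult B → ℕ → ℕ, IsR g → IsR s → (∀ ω, InfS (s ω)) →
      ∃ v : Γ, AE c fun ω => ∀ i, {a | S.Bad ω (g ω) v a ∧ s ω (Nat.pair i a) = 0}.Infinite) :
    False := by
  classical
  obtain ⟨Opc, hOp1, hOp2, hOp3⟩ := exists_localChoice (B := B) (W := Γ)
    (fun ω w w' => ω.V c → w⁻¹ * w' ∈ S.Z ω)
    (fun ι b w hb => by
      obtain ⟨g', hg'⟩ := S.mix ι b w hb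
      exact ⟨g', fun i => Eventually.of_forall fun ω h1 h2 => hg' i ω h1 h2⟩)
    S.R4Rel
    (fun ω x y z w w' h1 h2 => S.r4_rel_congr ω x y z w w' h1 h2)
    (fun g s hg hs => by
      have hs' : IsR fun ω => if InfS (s ω) then s ω else fun _ => 0 := by
        letI : MeasurableSpace (Ult B) := genM B
        exact Measurable.ite (r4_meas_InfS hs) hs measurable_const
      obtain ⟨v, hv⟩ := h g _ hg hs' (by
        intro ω
        split_ifs with h1
        · exact h1
        · intro i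
          simp only [Set.ofPred_true]
          exact Set.infinite_univ)
      refine ⟨S.r4H g v, v, S.r4_isR_H hg v, ?_⟩
      filter_upwards [hv] with ω hv hω hinf
      have h1 := hv hω
      rw [if_pos hinf] at h1
      exact S.r4_rel_of h1 hω hinf)
  -- the operations
  obtain ⟨W, l, ⟨w0, hw0⟩, hWm, hlm, hl, hWop, -, hWA, -, hWt⟩ := hL
    (fun i F G => if i = 0 then (fun ω n => Opc F G ω (Nat.pair 0 n)) else
      if i = 1 then (fun ω n => Opc F G ω (Nat.pair 1 n)) else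
      (fun ω n => ∑ j ∈ Finset.range (S.E ω (n + 1)).card, F ω (Nat.pair (n + 1) j)))
    (by
      intro i F G hF hG
      split_ifs with h0 h1
      · exact meas_real.2 fun n k => meas_real.1 (hOp1 F G hF hG) (Nat.pair 0 n) k
      · exact meas_real.2 fun n k => meas_real.1 (hOp1 F G hF hG) (Nat.pair 1 n) k
      · letI : MeasurableSpace (Ult B) := genM B
        refine measurable_pi_iff.2 fun n => ?_
        refine meas_sel (f := fun ω => (S.E ω (n + 1)).card)
          (g := fun k ω => ∑ j ∈ Finset.range k, F ω (Nat.pair (n + 1) j))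
          (S.r4_meas_card (n + 1)) fun k => ?_
        exact Finset.measurable_sum _ fun j _ => (measurable_pi_apply _).comp hF)
    (by
      intro i F G F' G' hF hG hF' hG'
      split_ifs with h0 h1
      · filter_upwards [hOp2 F G F' G' hF hG hF' hG'] with ω h2 h3 h4
        rw [h2 h3 h4]
      · filter_upwards [hOp2 F G F' G' hF hG hF' hG'] with ω h2 h3 h4
        rw [h2 h3 h4]
      · refine Eventually.of_forall fun ω h3 _ => ?_
        simp only [h3])
  obtain ⟨y, hy⟩ := S.big l hlm hl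
  -- the function `t`
  set t : Ult B → ℕ → ℕ := fun ω p =>
    S.lev ω (y⁻¹ * r4en (S.E ω (Nat.unpair p).1) (Nat.unpair p).2) ((Nat.unpair p).1 - 2) with ht
  have htm : IsR t := meas_real.2 fun p k =>
    S.r4_sel_E (Nat.unpair p).1
      (P := fun F ω => S.lev ω (y⁻¹ * r4en F (Nat.unpair p).2) ((Nat.unpair p).1 - 2) = k)
      fun F => S.r4_meas_lev _ _ _
  obtain ⟨g0, hg0X, hg0⟩ := hWt t htm
  set g : Ult B → ℕ → ℕ := fun ω n =>
    ∑ j ∈ Finset.range (S.E ω (n + 1)).card, g0 ω (Nat.pair (n + 1) j) with hgdef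
  have hgX : g ∈ W := by
    have := hWop 2 g0 hg0X g0 hg0X
    simpa using this
  obtain ⟨s, hsX, hs⟩ := hWA g hgX
  have hfX : (fun ω n => Opc g s ω (Nat.pair 1 n)) ∈ W := by
    have := hWop 1 g hgX s hsX
    simpa using this
  obtain ⟨v, hv⟩ := hOp3 g s (hWm g hgX) (hWm s hsX)
  have hgf := hg0 _ hfX
  have hsm := S.small (y * v)
  have hlv := S.exists_level v
  -- take one `ω`
  obtain ⟨ω, hω, ⟨hy, hsm, hlv⟩, hs, hv, hgf⟩ := AE.exists hc
    ((hy.and (hsm.and hlv)).and ((AE.of_ae hs).and ((AE.of_ae hv).and (AE.of_ae hgf))))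
  obtain ⟨hinf, hs⟩ := hs
  obtain ⟨hA, κ, hκ, hf⟩ := hv hω hinf
  simp only [if_true] at hs
  have hAl := hs hA
  obtain ⟨K, hK⟩ := eventually_atTop.1 (hAl.and hgf)
  -- a small place of `y * v`
  obtain ⟨n, hn, e, he, heu⟩ := hsm.forall_exists_of_atTop (l ω K + 5)
  have hlω := hl ω
  have hlk : ∃ k, K ≤ k ∧ l ω k ≤ n + 1 ∧ n + 2 ≤ l ω (k + 1) := by
    have hex : ∃ k, n + 2 ≤ l ω k := ⟨n + 2, hlω.le_apply⟩
    have h1 := Nat.find_spec hex
    have h0 : K < Nat.find hex := by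
      by_contra hlt
      have := hlω.monotone (not_lt.1 hlt)
      omega
    refine ⟨Nat.find hex - 1, by omega, ?_, ?_⟩
    · have := Nat.find_min hex (m := Nat.find hex - 1) (by omega)
      omega
    · rwa [Nat.sub_add_cancel (by omega)]
  obtain ⟨k, hKk, hk1, hk2⟩ := hlk
  obtain ⟨hAk, hgk⟩ := hK k hKk
  obtain ⟨hκ1, hκ2, hκ3⟩ := hκ (l ω k) hAk
  have hyv : S.In ω (y * v) (n + 1) n := ⟨e, he, heu⟩
  by_cases hnk : κ (l ω k) < n
  · -- first case
    refine hy k ?_
    have h := In.mul (S := S) hω (l := n + 2) (n := l ω k + 1) hyv hκ2 (by omega) (by omega)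
      hnk (by omega) (by omega)
    rw [mul_assoc, mul_inv_cancel, mul_one] at h
    exact In.mono hω h hk2 le_rfl
  · have hnk : n ≤ κ (l ω k) := not_lt.1 hnk
    obtain ⟨j, hj, rfl⟩ := r4_mem_en (S.E ω (n + 1)) he
    obtain ⟨hp1, hp2⟩ := hf (l ω k) n j hnk hj
    have hpn : n + 1 ≤ Nat.pair (n + 1) j := Nat.left_le_pair _ _
    set w : Γ := (r4en (S.E ω (n + 1)) j)⁻¹ * (y * v) with hw
    have h1 : S.In ω (y⁻¹ * r4en (S.E ω (n + 1)) j) (S.lev ω v n) (n - 1) := by
      have := In.mul_V (S := S) hω (n := n - 1) (S.in_lev (hlv n)) (S.inv_V ω hω n w heu)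
        (by omega) (by omega)
      have e1 : y⁻¹ * r4en (S.E ω (n + 1)) j = v * w⁻¹ := by rw [hw]; group
      rwa [e1]
    have ht1 : t ω (Nat.pair (n + 1) j) =
        S.lev ω (y⁻¹ * r4en (S.E ω (n + 1)) j) (n - 1) := by
      simp only [ht, Nat.unpair_pair]
      rfl
    have h2 : t ω (Nat.pair (n + 1) j) ≤ Opc g s ω (Nat.pair 1 (l ω k)) := by
      rw [ht1]
      exact (S.lev_le h1).trans hp2
    have h3 := hgk (Nat.pair (n + 1) j) (by omega) hp1 h2
    have h4 : g0 ω (Nat.pair (n + 1) j) ≤ g ω n :=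
      Finset.single_le_sum (f := fun j => g0 ω (Nat.pair (n + 1) j))
        (fun _ _ => Nat.zero_le _) (Finset.mem_range.2 hj)
    have h5 : S.In ω (y⁻¹ * r4en (S.E ω (n + 1)) j) (g ω n) (n - 1) := by
      refine In.mono hω (S.in_lev ⟨_, h1⟩) ?_ le_rfl
      rw [← ht1]
      exact h3.trans h4
    refine hκ3 n hk1 hnk ?_
    have h6 := In.mul_V (S := S) hω (n := n - 2) h5 heu (by omega) (by omega)
    have e2 : y⁻¹ * r4en (S.E ω (n + 1)) j * w = v := by rw [hw]; group
    rwa [e2] at h6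

end RSys

end Pool.Agent.MP_b00c97_gt.RN
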