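import Pool.Agent.MP_b00c97_gt.RN.Basic

/-!
# MP_b00c97_gt, part RN, block R5: the families of step 3 are hitting
-/

set_option autoImplicit false

open Set MeasureTheory Filter

namespace Pool.Agent.MP_b00c97_gt.RN

open Pool.Agent.BVM Pool.Agent.MP9096b7
open Pool.Agent.MP_b00c97_gt.Lav (meas_sel meas_sel_set meas_all meas_ex meas_and meas_or meas_not
  meas_imp meas_const meas_rel meas_rel1 meas_real meas_ev meas_eq)

universe u v

variable {B : Type} [CompleteBooleanAlgebra B] {c : B} {Γ : Type u} [Group Γ]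

namespace N5

/-- The least element above `m` of the `i`-th set coded by `s`. -/
noncomputable def al (s : ℕ → ℕ) (i m : ℕ) : ℕ := sInf {a | s (Nat.pair i a) = 0 ∧ m < a}

/-- The code of the first `e` values of `x`. -/
def cc (x : ℕ → ℕ) (e : ℕ) : ℕ := Encodable.encode ((List.range e).map x)

/-- The sequence of lengths. -/
noncomputable def ee (x s : ℕ → ℕ) : ℕ → ℕ
  | 0 => 0
  | k + 1 => (Finset.range (k + 1)).sup (fun i => al s i (cc x (ee x s k) + 20)) + 21

/-- The sequence `J`. -/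
noncomputable def JJ (x s : ℕ → ℕ) (k : ℕ) : ℕ := cc x (ee x s k)

open Classical in
/-- The number of elements of `P` below `n`. -/
noncomputable def cnt (P : ℕ → Prop) (n : ℕ) : ℕ := Nat.count P n

open Classical in
/-- The set `A`. -/
noncomputable def AA (P : ℕ → Prop) (x s : ℕ → ℕ) (n : ℕ) : ℕ :=
  if ∃ r k, P k ∧ cnt P k = 7 * r + 7 ∧ al s (Nat.unpair r).1 (JJ x s (k - 1) + 20) = n
  then 0 else 1

theorem AA_eq {P : ℕ → Prop} {x s : ℕ → ℕ} {n : ℕ} : AA P x s n = 0 ↔
    ∃ r k, P k ∧ cnt P k = 7 * r + 7 ∧ al s (Nat.unpair r).1 (JJ x s (k - 1) + 20) = n := by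
  classical
  unfold AA
  split_ifs with h
  · simp [h]
  · simp [h]

theorem al_spec {s : ℕ → ℕ} (hs : InfS s) (i m : ℕ) :
    s (Nat.pair i (al s i m)) = 0 ∧ m < al s i m := by
  have : {a | s (Nat.pair i a) = 0 ∧ m < a}.Nonempty := by
    obtain ⟨a, ha, hma⟩ := (hs i).exists_gt m
    exact ⟨a, ha, hma⟩
  exact Nat.sInf_mem this

theorem le_cc (x : ℕ → ℕ) (e : ℕ) : e ≤ cc x e := by
  have := Encodable.length_le_encode ((List.range e).map x)
  rwa [List.length_map, List.length_range] at this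

theorem al_lt_ee {x s : ℕ → ℕ} {k i : ℕ} (hi : i ≤ k) :
    al s i (cc x (ee x s k) + 20) + 20 < ee x s (k + 1) := by
  have : al s i (cc x (ee x s k) + 20) ≤
      (Finset.range (k + 1)).sup (fun i => al s i (cc x (ee x s k) + 20)) :=
    Finset.le_sup (f := fun i => al s i (cc x (ee x s k) + 20)) (Finset.mem_range.2 (by omega))
  rw [ee]
  omega

theorem ee_le_JJ (x s : ℕ → ℕ) (k : ℕ) : ee x s k ≤ JJ x s k := le_cc x _

theorem JJ_30 {x s : ℕ → ℕ} (hs : InfS s) (k : ℕ) : JJ x s k + 30 ≤ JJ x s (k + 1) := by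
  have h1 := al_lt_ee (x := x) (s := s) (Nat.zero_le k)
  have h2 := (al_spec hs 0 (cc x (ee x s k) + 20)).2
  have h3 := ee_le_JJ x s (k + 1)
  have h4 : JJ x s k = cc x (ee x s k) := rfl
  omega

theorem JJ_mono {x s : ℕ → ℕ} (hs : InfS s) : StrictMono (JJ x s) :=
  strictMono_nat_of_lt_succ fun k => by
    have := JJ_30 (x := x) hs k
    omega

/-! ### Measurability -/

section meas

variable {Ω : Type*} {m : MeasurableSpace Ω}

theorem meas_cc {x : Ω → ℕ → ℕ} (hx : Measurable[m] x) (e n : ℕ) :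
    MeasurableSet[m] {ω | cc (x ω) e = n} := by
  have key : ∀ e, ∀ l : List ℕ, MeasurableSet[m] {ω | (List.range e).map (x ω) = l} := by
    intro e
    induction e with
    | zero => intro l; exact meas_ev _ (meas_const ([] = l)) fun ω => by simp
    | succ e ih =>
      intro l
      have : ∀ ω, (List.range (e + 1)).map (x ω) = (List.range e).map (x ω) ++ [x ω e] := by
        intro ω
        rw [List.range_succ, List.map_append]
        rfl
      simp only [this]
      exact meas_rel ih (meas_real.1 hx e) (fun l' j => l' ++ [j] = l)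
  exact meas_rel1 (key e) (fun l => Encodable.encode l = n)

theorem meas_al {s : Ω → ℕ → ℕ} (hs : Measurable[m] s) (i j n : ℕ) :
    MeasurableSet[m] {ω | al (s ω) i j = n} := by
  have h0 : ∀ a, MeasurableSet[m] {ω | s ω (Nat.pair i a) = 0 ∧ j < a} := fun a =>
    meas_and (meas_real.1 hs _ _) (meas_const _)
  refine meas_ev _ (meas_or
    (meas_and (h0 n) (meas_all fun a => meas_imp (h0 a) (meas_const (n ≤ a))))
    (meas_and (meas_not (meas_ex h0)) (meas_const (n = 0)))) fun ω => ?_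
  simp only [al]
  constructor
  · intro h
    by_cases hex : {a | s ω (Nat.pair i a) = 0 ∧ j < a}.Nonempty
    · left
      have h1 := Nat.sInf_mem hex
      rw [h] at h1
      exact ⟨h1, fun a ha => by rw [← h]; exact Nat.sInf_le ha⟩
    · right
      refine ⟨fun ⟨a, ha⟩ => hex ⟨a, ha⟩, ?_⟩
      rw [Set.not_nonempty_iff_eq_empty.1 hex, Nat.sInf_empty] at h
      exact h.symm
  · rintro (⟨h1, h2⟩ | ⟨h1, h2⟩)
    · exact le_antisymm (Nat.sInf_le h1) (h2 _ (Nat.sInf_mem (s := {a | s ω (Nat.pair i a) = 0 ∧ j < a}) ⟨n, h1⟩))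
    · have : {a | s ω (Nat.pair i a) = 0 ∧ j < a} = ∅ := by
        rw [Set.eq_empty_iff_forall_notMem]
        intro a ha
        exact h1 ⟨a, ha⟩
      rw [this, Nat.sInf_empty, h2]

theorem meas_al' {s : Ω → ℕ → ℕ} (hs : Measurable[m] s) (i : ℕ) {j : Ω → ℕ}
    (hj : ∀ k, MeasurableSet[m] {ω | j ω = k}) (n : ℕ) :
    MeasurableSet[m] {ω | al (s ω) i (j ω) = n} :=
  meas_sel_set (P := fun k ω => al (s ω) i k = n) hj fun k => meas_al hs i k n

theorem meas_sup {f : ℕ → Ω → ℕ} (hf : ∀ i n, MeasurableSet[m] {ω | f i ω = n}) (k n : ℕ) :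
    MeasurableSet[m] {ω | (Finset.range k).sup (fun i => f i ω) = n} := by
  induction k generalizing n with
  | zero => exact meas_ev _ (meas_const (0 = n)) fun ω => by simp
  | succ k ih =>
    have : ∀ ω, (Finset.range (k + 1)).sup (fun i => f i ω) =
        f k ω ⊔ (Finset.range k).sup (fun i => f i ω) := by
      intro ω
      rw [Finset.range_add_one, Finset.sup_insert]
    simp only [this]
    exact meas_rel (hf k) ih (fun a b => a ⊔ b = n)

theorem meas_ee {x s : Ω → ℕ → ℕ} (hx : Measurable[m] x) (hs : Measurable[m] s) (k n : ℕ) :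
    MeasurableSet[m] {ω | ee (x ω) (s ω) k = n} := by
  induction k generalizing n with
  | zero => exact meas_ev _ (meas_const (0 = n)) fun ω => by simp [ee]
  | succ k ih =>
    have h1 : ∀ j, MeasurableSet[m] {ω | cc (x ω) (ee (x ω) (s ω) k) = j} := fun j =>
      meas_sel_set (P := fun e ω => cc (x ω) e = j) ih fun e => meas_cc hx e j
    have h2 : ∀ j, MeasurableSet[m] {ω | cc (x ω) (ee (x ω) (s ω) k) + 20 = j} := fun j =>
      meas_rel1 h1 (fun i => i + 20 = j)
    have h3 : ∀ j, MeasurableSet[m] {ω | (Finset.range (k + 1)).sup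
        (fun i => al (s ω) i (cc (x ω) (ee (x ω) (s ω) k) + 20)) = j} :=
      meas_sup (f := fun i ω => al (s ω) i (cc (x ω) (ee (x ω) (s ω) k) + 20))
        (fun i j => meas_al' hs i h2 j) (k + 1)
    exact meas_rel1 h3 (fun i => i + 21 = n)

theorem meas_JJ {x s : Ω → ℕ → ℕ} (hx : Measurable[m] x) (hs : Measurable[m] s) :
    Measurable[m] fun ω => JJ (x ω) (s ω) :=
  meas_real.2 fun k n =>
    meas_sel_set (P := fun e ω => cc (x ω) e = n) (meas_ee hx hs k) fun e => meas_cc hx e n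

theorem meas_cnt {P : Ω → ℕ → Prop} (hP : ∀ k, MeasurableSet[m] {ω | P ω k}) (k n : ℕ) :
    MeasurableSet[m] {ω | cnt (P ω) k = n} := by
  classical
  induction k generalizing n with
  | zero => exact meas_ev _ (meas_const (0 = n)) fun ω => by simp [cnt]
  | succ k ih =>
    refine meas_ev _ (meas_or (meas_and (hP k) (meas_rel1 ih (fun i => i + 1 = n)))
      (meas_and (meas_not (hP k)) (ih n))) fun ω => ?_
    unfold cnt
    rw [Nat.count_succ]
    by_cases h : P ω k
    · simp [h]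
    · simp [h]

theorem meas_AA {P : Ω → ℕ → Prop} (hP : ∀ k, MeasurableSet[m] {ω | P ω k})
    {x s : Ω → ℕ → ℕ} (hx : Measurable[m] x) (hs : Measurable[m] s) :
    Measurable[m] fun ω => AA (P ω) (x ω) (s ω) := by
  classical
  refine meas_real.2 fun n j => ?_
  have h1 : MeasurableSet[m] {ω | ∃ r k, P ω k ∧ cnt (P ω) k = 7 * r + 7 ∧
      al (s ω) (Nat.unpair r).1 (JJ (x ω) (s ω) (k - 1) + 20) = n} :=
    meas_ex fun r => meas_ex fun k => meas_and (hP k) (meas_and (meas_cnt hP _ _)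
      (meas_al' hs _ (fun i => meas_rel1 (meas_real.1 (meas_JJ hx hs) (k - 1))
        (fun l => l + 20 = i)) n))
  refine meas_ev _ (meas_or (meas_and h1 (meas_const (0 = j)))
    (meas_and (meas_not h1) (meas_const (1 = j)))) fun ω => ?_
  change (if _ then 0 else 1) = j ↔ _
  split_ifs with h
  · constructor
    · intro h2; exact Or.inl ⟨h, h2⟩
    · rintro (h2 | h2)
      · exact h2.2
      · exact absurd h h2.1
  · constructor
    · intro h2; exact Or.inr ⟨h, h2⟩
    · rintro (h2 | h2)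
      · exact absurd h2.1 h
      · exact h2.2

end meas

/-! ### The pointwise argument -/

theorem pointwise (S : RSys B c Γ) {ω : Ult B} (hω : ω.V c) (x s : ℕ → ℕ) (hs : InfS s) (z : Γ)
    (hzIn : ∀ k, ¬ S.In ω z (JJ x s (k + 1)) (JJ x s k + 1))
    (hsmall : ∃ᶠ i in atTop, S.In ω z (i + 1) i) :
    S.StepRel ω x (AA (fun k => S.In ω z (JJ x s k + 1) (JJ x s k)) x s) (JJ x s) z ∧
      ∀ i, {n | AA (fun k => S.In ω z (JJ x s k + 1) (JJ x s k)) x s n = 0 ∧
        s (Nat.pair i n) = 0}.Infinite := by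
  classical
  set J := JJ x s with hJ
  have hJmono : StrictMono J := JJ_mono hs
  have hJe : ∀ k, ee x s k ≤ J k := ee_le_JJ x s
  have hran : ∀ i, S.In ω z (i + 1) i → J 0 < i → ∃ k, J k = i := by
    intro i hi h0
    by_contra hcon
    push Not at hcon
    have hex : ∃ k, i ≤ J k := ⟨i, hJmono.id_le i⟩
    obtain ⟨k, hk, hmin⟩ : ∃ k, i ≤ J k ∧ ∀ m < k, ¬ i ≤ J m :=
      ⟨Nat.find hex, Nat.find_spec hex, fun m hm => Nat.find_min hex hm⟩
    obtain _ | k := k
    · omega
    · have h1 := hmin k (by omega)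
      have h2 := hcon (k + 1)
      apply hzIn k
      exact RSys.In.mono (S := S) hω hi (by omega) (by omega)
  set P : ℕ → Prop := fun k => S.In ω z (J k + 1) (J k) with hP
  have hKinf : {k | P k}.Infinite := by
    rw [Set.infinite_iff_exists_gt]
    intro N
    obtain ⟨i, hi, h⟩ := hsmall.forall_exists_of_atTop (J (N + 1))
    have h0 : J 0 < i := lt_of_lt_of_le (hJmono (Nat.succ_pos N)) hi
    obtain ⟨k, rfl⟩ := hran i h h0
    refine ⟨k, h, ?_⟩
    by_contra hlt
    have h1 : k ≤ N := not_lt.1 hlt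
    have h2 := hJmono (show k < N + 1 by omega)
    omega
  let κ : ℕ → ℕ := Nat.nth P
  have hκ : StrictMono κ := Nat.nth_strictMono hKinf
  have hκK : ∀ r, P (κ r) := fun r => Nat.nth_mem_of_infinite hKinf r
  have hcnt : ∀ k r, (P k ∧ cnt P k = r) ↔ κ r = k := by
    intro k r
    constructor
    · rintro ⟨h1, rfl⟩
      exact Nat.nth_count h1
    · rintro rfl
      exact ⟨hκK r, Nat.count_nth_of_infinite hKinf r⟩
  have hκid : ∀ r, r ≤ κ r := fun r => hκ.id_le r
  let b : ℕ → ℕ := fun r => (Nat.unpair r).1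
  have hb : ∀ r, b r ≤ r := fun r => Nat.unpair_left_le r
  let a : ℕ → ℕ := fun r => al s (b r) (J (κ (7 * r + 7) - 1) + 20)
  have ha1 : ∀ r, J (κ (7 * r + 7) - 1) + 20 < a r := fun r => (al_spec hs _ _).2
  have ha2 : ∀ r, s (Nat.pair (b r) (a r)) = 0 := fun r => (al_spec hs _ _).1
  have ha3 : ∀ r, a r + 20 < ee x s (κ (7 * r + 7)) := by
    intro r
    have h1 := hκid (7 * r + 7)
    have h2 := hb r
    have h3 := al_lt_ee (x := x) (s := s) (k := κ (7 * r + 7) - 1) (i := b r) (by omega)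
    have h4 : κ (7 * r + 7) - 1 + 1 = κ (7 * r + 7) := by omega
    rw [h4] at h3
    exact h3
  have ha4 : ∀ r, a r < J (κ (7 * r + 7)) := by
    intro r
    have h1 := ha3 r
    have h2 := hJe (κ (7 * r + 7))
    omega
  have ha5 : ∀ r r', r < r' → J (κ (7 * r + 12)) < a r' := by
    intro r r' hr
    have h1 := ha1 r'
    have h2 : κ (7 * r + 12) ≤ κ (7 * r' + 7) - 1 := by
      have h3 := hκ (show 7 * r + 12 < 7 * r' + 7 by omega)
      omega
    have h3 := hJmono.monotone h2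
    omega
  have hamono : StrictMono a := by
    intro r r' hr
    have h1 := ha4 r
    have h2 := ha5 r r' hr
    have h3 := hJmono.monotone (hκ.monotone (show 7 * r + 7 ≤ 7 * r + 12 by omega))
    omega
  have hA : ∀ n, AA P x s n = 0 ↔ ∃ r, a r = n := by
    intro n
    rw [AA_eq]
    constructor
    · rintro ⟨r, k, h1, h2, h3⟩
      have h4 := (hcnt k _).1 ⟨h1, h2⟩
      subst h4
      exact ⟨r, h3⟩
    · rintro ⟨r, h⟩
      obtain ⟨h1, h2⟩ := (hcnt _ (7 * r + 7)).2 rfl
      exact ⟨r, κ (7 * r + 7), h1, h2, h⟩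
  refine ⟨⟨?_, hJmono, JJ_30 hs, hzIn, ?_, ?_⟩, ?_⟩
  · refine Set.infinite_of_injective_forall_mem (f := a) hamono.injective fun r => ?_
    exact (hA _).2 ⟨r, rfl⟩
  · intro n hn
    obtain ⟨r, rfl⟩ := (hA n).1 hn
    have h1 := hκid (7 * r + 7)
    have h4 : κ (7 * r + 7) - 1 + 1 = κ (7 * r + 7) := by omega
    refine ⟨κ (7 * r + 7) - 1, ee x s (κ (7 * r + 7)), ha1 r, ha3 r, ?_, ?_, ?_⟩
    · rw [h4]; exact hJe _
    · rw [h4]; rfl
    · rw [h4]; exact hκK _
  · intro n n' hn hn' hlt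
    obtain ⟨r, rfl⟩ := (hA n).1 hn
    obtain ⟨r', rfl⟩ := (hA n').1 hn'
    have hrr : r < r' := hamono.lt_iff_lt.1 hlt
    refine ⟨fun i => J (κ (7 * r + 7 + i)), ?_, ?_, ?_, ?_⟩
    · intro i j hij
      exact hJmono (hκ (by omega))
    · exact ha4 r
    · exact ha5 r r' hrr
    · intro i _
      exact hκK _
  · intro i
    refine Set.infinite_of_injective_forall_mem (f := fun m => a (Nat.pair i m)) ?_ ?_
    · intro m m' h
      have h1 := hamono.injective h
      exact (Nat.pair_eq_pair.1 h1).2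
    · intro m
      refine ⟨(hA _).2 ⟨_, rfl⟩, ?_⟩
      have h1 := ha2 (Nat.pair i m)
      have h2 : b (Nat.pair i m) = i := by simp [b]
      rw [h2] at h1
      exact h1

end N5

/-- R5: the families of step 3 are hitting. -/
theorem RSys.exists_step (S : RSys B c Γ) (x s : Ult B → ℕ → ℕ) (hx : IsR x) (hs : IsR s)
    (hinf : ∀ ω, InfS (s ω)) :
    ∃ (A J : Ult B → ℕ → ℕ) (z : Γ), IsR A ∧ IsR J ∧
      AE c fun ω => S.StepRel ω (x ω) (A ω) (J ω) z ∧
        ∀ i, {n | A ω n = 0 ∧ s ω (Nat.pair i n) = 0}.Infinite := by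
  have hJ : IsR fun ω => N5.JJ (x ω) (s ω) := N5.meas_JJ hx hs
  obtain ⟨z, hz⟩ := S.big (fun ω => N5.JJ (x ω) (s ω)) hJ fun ω => N5.JJ_mono (hinf ω)
  have hP : ∀ k, MeasurableSet[genM B] {ω | S.In ω z (N5.JJ (x ω) (s ω) k + 1)
      (N5.JJ (x ω) (s ω) k)} := fun k =>
    S.meas_In' z (fun i => meas_rel1 (meas_real.1 hJ k) (fun j => j + 1 = i)) (meas_real.1 hJ k)
  refine ⟨fun ω => N5.AA (fun k => S.In ω z (N5.JJ (x ω) (s ω) k + 1) (N5.JJ (x ω) (s ω) k))
    (x ω) (s ω), fun ω => N5.JJ (x ω) (s ω), z, N5.meas_AA hP hx hs, hJ, ?_⟩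
  exact (hz.and (S.small z)).mono fun ω hω h =>
    N5.pointwise S hω (x ω) (s ω) (hinf ω) z h.1 h.2

end Pool.Agent.MP_b00c97_gt.RN
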