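import Pool.Agent.MP_b00c97_gt.RN.Basic
import Pool.Agent.MP_b00c97_gt.RN.Choice
import Pool.Agent.MP_b00c97_gt.RN.N5

/-!
# MP_b00c97_gt, block R6: two-sided random window systems contradict `LProp`
-/

set_option autoImplicit false

open Set MeasureTheory Filter

namespace Pool.Agent.MP_b00c97_gt.RN

open Pool.Agent.BVM Pool.Agent.MP9096b7
open Pool.Agent.MP_b00c97_gt.Lav (meas_sel meas_sel_set meas_all meas_ex meas_and meas_or meas_not
  meas_imp meas_const meas_rel meas_rel1 meas_real meas_ev meas_eq meas_iff meas_ite LProp)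

universe u v

variable {B : Type} [CompleteBooleanAlgebra B] {c : B} {Γ : Type u} [Group Γ]

/-- Mixing of names for reals. -/
private theorem r6_mixReal (ι : Type) (b : ι → B) (F : ι → Ult B → ℕ → ℕ)
    (hF : ∀ i, IsR (F i)) (hb : Pairwise fun i j => Disjoint (b i) (b j)) :
    ∃ F' : Ult B → ℕ → ℕ, IsR F' ∧ ∀ i ω, ω.V (b i) → F' ω = F i ω := by
  classical
  have huniq : ∀ (ω : Ult B) (i j : ι), ω.V (b i) → ω.V (b j) → i = j := by
    intro ω i j h2 h3
    by_contra hne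
    have h4 : b i ⊓ b j = ⊥ := disjoint_iff.1 (hb hne)
    have h5 : ω.V (b i ⊓ b j) := (ω.inf' _ _).2 ⟨h2, h3⟩
    rw [h4] at h5
    exact ω.bot h5
  let F' : Ult B → ℕ → ℕ := fun ω => if hω : ∃ i, ω.V (b i) then F hω.choose ω else 0
  have hF' : ∀ i ω, ω.V (b i) → F' ω = F i ω := by
    intro i ω hi
    have hω : ∃ i, ω.V (b i) := ⟨i, hi⟩
    show (if hω : ∃ i, ω.V (b i) then F hω.choose ω else 0) = _
    rw [dif_pos hω, huniq ω _ i hω.choose_spec hi]
  refine ⟨F', ?_, hF'⟩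
  let _ : MeasurableSpace (Ult B) := genM B
  refine measurable_pi_iff.2 fun n => measurable_to_countable' fun k => ?_
  have h2 : ∀ i : ι, ∃ d : B, ∀ᶠ ω in genN B, (F i ω n = k ↔ ω.V d) := by
    intro i
    have h3 : MeasurableSet[genM B] {ω | F i ω n = k} :=
      (measurable_pi_iff.1 (hF i) n) (measurableSet_singleton k)
    exact genM_iff.1 h3
  choose d hd using h2
  let b' : Option ι → B := fun o => o.elim (⨆ i, b i)ᶜ b
  let d' : Option ι → B := fun o => o.elim (if 0 = k then ⊤ else ⊥) d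
  refine genM_iff.2 ⟨⨆ o, b' o ⊓ d' o, ?_⟩
  have htop : ⨆ o, b' o = ⊤ := by
    rw [iSup_option]
    exact compl_sup_eq_top
  have huniq' : ∀ (ω : Ult B) (i j : Option ι), ω.V (b' i) → ω.V (b' j) → i = j := by
    have hnone : ∀ (ω : Ult B) (i : ι), ω.V (b' none) → ω.V (b' (some i)) → False := by
      intro ω i h1 h2
      change ω.V (⨆ i, b i)ᶜ at h1
      rw [ω.compl'] at h1
      exact h1 (ω.mono (le_iSup b i) h2)
    intro ω i j hi hj
    cases i with
    | none =>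
      cases j with
      | none => rfl
      | some j => exact (hnone ω j hi hj).elim
    | some i =>
      cases j with
      | none => exact (hnone ω i hj hi).elim
      | some j => rw [huniq ω i j hi hj]
  refine Lav.gen_local b' htop fun o => ?_
  cases o with
  | none =>
    filter_upwards [gen_iSup fun o => b' o ⊓ d' o] with ω h5 h6
    have h7 : F' ω = 0 := by
      have hω : ¬ ∃ i, ω.V (b i) := by
        rintro ⟨i, hi⟩
        have := huniq' ω none (some i) h6 hi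
        cases this
      show (if hω : ∃ i, ω.V (b i) then F hω.choose ω else 0) = 0
      rw [dif_neg hω]
    show F' ω n = k ↔ _
    rw [h7, h5]
    constructor
    · intro h8
      refine ⟨none, (ω.inf' _ _).2 ⟨h6, ?_⟩⟩
      change ω.V (if 0 = k then ⊤ else ⊥)
      rw [if_pos (show (0 : ℕ) = k from h8)]
      exact ω.mono le_top h6
    · rintro ⟨o, h8⟩
      rw [ω.inf'] at h8
      have h9 := huniq' ω none o h6 h8.1
      subst h9
      have h10 : ω.V (if 0 = k then ⊤ else ⊥) := h8.2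
      by_contra hne
      rw [if_neg (show ¬ (0 : ℕ) = k from hne)] at h10
      exact ω.bot h10
  | some i =>
    filter_upwards [hd i, gen_iSup fun o => b' o ⊓ d' o] with ω h4 h5 h6
    show F' ω n = k ↔ _
    rw [hF' i ω h6, h4, h5]
    constructor
    · intro h7
      exact ⟨some i, (ω.inf' _ _).2 ⟨h6, h7⟩⟩
    · rintro ⟨q', h7⟩
      rw [ω.inf'] at h7
      have h8 := huniq' ω (some i) q' h6 h7.1
      subst h8
      exact h7.2

/-- The largest value of `l` below `i`. -/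
private theorem r6_exists_gap {l : ℕ → ℕ} (hl : StrictMono l) {i : ℕ} (hi : l 0 ≤ i) :
    ∃ k, l k ≤ i ∧ i < l (k + 1) := by
  classical
  have hex : ∃ k, i < l (k + 1) := ⟨i, lt_of_lt_of_le (Nat.lt_succ_self i) (hl.id_le _)⟩
  refine ⟨Nat.find hex, ?_, Nat.find_spec hex⟩
  rcases Nat.eq_zero_or_pos (Nat.find hex) with h0 | h0
  · rw [h0]; exact hi
  · have := Nat.find_min hex (m := Nat.find hex - 1) (by omega)
    rw [show Nat.find hex - 1 + 1 = Nat.find hex by omega] at this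
    omega

namespace RSys

variable (S : RSys B c Γ)

/-- `v` is two-sided at `ω`. -/
private def TSat (ω : Ult B) (v : Γ) : Prop :=
  ∀ᶠ i in atTop, ∀ κ, i + 2 ≤ κ → S.In ω v⁻¹ κ (i + 2) →
    ∃ m, i ≤ m + 1 ∧ m ≤ κ ∧ S.In ω v (m + 2) (m - 1)

section pointwise

variable {S} {ω : Ult B} (hω : ω.V c)

include hω

/-- Smallness of `g` at `n` gives smallness of `g⁻¹` near `n`. -/
private theorem r6_inv_small {g : Γ} (hT : S.TSat ω g⁻¹) :
    ∀ᶠ n in atTop, S.In ω g (n + 1) n → S.In ω g⁻¹ (n + 3) (n - 4) := by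
  obtain ⟨i₀, hi₀⟩ := eventually_atTop.1 hT
  refine eventually_atTop.2 ⟨i₀ + 5, fun n hn h => ?_⟩
  obtain ⟨m, h1, h2, h3⟩ := hi₀ (n - 2) (by omega) (n + 1) (by omega)
    (by rw [inv_inv]; exact In.mono hω h le_rfl (by omega))
  exact In.mono hω h3 (by omega) (by omega)

/-- In large gaps of `z` the inverse of `z` is not small. -/
private theorem r6_not_in_inv {z : Γ} (hT : S.TSat ω z) (J : ℕ → ℕ) (hJ : StrictMono J)
    (hz : ∀ k, ¬ S.In ω z (J (k + 1)) (J k + 1)) :
    ∀ᶠ k in atTop, ∀ κ, J k + 5 ≤ κ → κ + 2 ≤ J (k + 1) → ¬ S.In ω z⁻¹ κ (J k + 5) := by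
  obtain ⟨i₀, hi₀⟩ := eventually_atTop.1 hT
  refine eventually_atTop.2 ⟨i₀, fun k hk κ h1 h2 h => ?_⟩
  have hJk : k ≤ J k := hJ.id_le k
  obtain ⟨m, h3, h4, h5⟩ := hi₀ (J k + 3) (by omega) κ (by omega) h
  exact hz k (In.mono hω h5 (by omega) (by omega))

/-- The small places of `z` above `J 0` are among the values of `J`. -/
private theorem r6_mem_range_of_small {z : Γ} {J : ℕ → ℕ} (hJ : StrictMono J)
    (hz : ∀ k, ¬ S.In ω z (J (k + 1)) (J k + 1)) {i : ℕ} (hi : J 0 ≤ i)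
    (h : S.In ω z (i + 1) i) : ∃ k, J k = i := by
  obtain ⟨k, hk1, hk2⟩ := r6_exists_gap hJ hi
  refine ⟨k, ?_⟩
  by_contra hne
  exact hz k (In.mono hω h (by omega) (by omega))

/-- The small places of `z` above `J 0` are far apart. -/
private theorem r6_gap_of_small {z : Γ} {J : ℕ → ℕ} (hJ : StrictMono J)
    (hgap : ∀ k, J k + 30 ≤ J (k + 1))
    (hz : ∀ k, ¬ S.In ω z (J (k + 1)) (J k + 1)) {i j : ℕ} (hi : J 0 ≤ i) (hij : i < j)
    (h : S.In ω z (i + 1) i) (h' : S.In ω z (j + 1) j) : i + 30 ≤ j := by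
  obtain ⟨k, rfl⟩ := r6_mem_range_of_small hω hJ hz hi h
  obtain ⟨k', rfl⟩ := r6_mem_range_of_small hω hJ hz (le_of_lt (lt_of_le_of_lt hi hij)) h'
  have hkk : k < k' := hJ.lt_iff_lt.1 hij
  have : J (k + 1) ≤ J k' := hJ.monotone hkk
  have := hgap k
  omega

/-- Main step: for every large small place `n` of `z⁻¹ * w` there is a value of `l` (in both
senses) in the window `[n - 1, n + 5]`. -/
private theorem r6_exists_close (w z : Γ) (hTw : S.TSat ω w) (hTz : S.TSat ω z⁻¹)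
    (hTzw : S.TSat ω (z⁻¹ * w)⁻¹) (hsz : ∃ᶠ i in atTop, S.In ω z (i + 1) i)
    (l : ℕ → ℕ) (hl : StrictMono l)
    (hw : ∀ k, ¬ S.In ω w (l (k + 1)) (l k + 1)) {x A J : ℕ → ℕ}
    (hA : S.StepRel ω x A J z) (hAl : ∀ᶠ k in atTop, A (l k) = 0) :
    ∀ᶠ n in atTop, S.In ω (z⁻¹ * w) (n + 1) n → ∃ a, A a = 0 ∧ n ≤ a + 1 ∧ a ≤ n + 5 := by
  obtain ⟨-, hJ, hgap, hz, hcode, hsix⟩ := hA
  obtain ⟨k₀, hk₀⟩ := eventually_atTop.1 hAl
  obtain ⟨k₁, hk₁⟩ := eventually_atTop.1 (r6_not_in_inv hω hTw l hl hw)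
  obtain ⟨n₂, hn₂⟩ := eventually_atTop.1 (r6_inv_small hω hTzw)
  obtain ⟨n₃, hn₃⟩ := eventually_atTop.1 (r6_inv_small hω hTz)
  -- a small place of `z` that is larger than everything
  set M := l k₀ + l k₁ + l 0 + n₂ + n₃ + J 0 + 100 with hM
  obtain ⟨t₀, ht₀, ht₀'⟩ := hsz.forall_exists_of_atTop M
  refine eventually_atTop.2 ⟨t₀ + 100, fun n hn hsmall => ?_⟩
  have hinv : S.In ω (z⁻¹ * w)⁻¹ (n + 3) (n - 4) := hn₂ n (by omega) hsmall
  -- the least small place `T ≥ n + 2` of `z`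
  classical
  have hexT : ∃ T, n + 2 ≤ T ∧ S.In ω z (T + 1) T := by
    obtain ⟨T, h1, h2⟩ := hsz.forall_exists_of_atTop (n + 2)
    exact ⟨T, h1, h2⟩
  obtain ⟨T, ⟨hT1, hT2⟩, hTmin⟩ : ∃ T, (n + 2 ≤ T ∧ S.In ω z (T + 1) T) ∧
      ∀ T', n + 2 ≤ T' → S.In ω z (T' + 1) T' → T ≤ T' :=
    ⟨Nat.find hexT, Nat.find_spec hexT, fun T' h1 h2 => Nat.find_min' hexT ⟨h1, h2⟩⟩
  -- the largest small place `t ≤ n - 8` of `z`
  obtain ⟨t, ⟨ht1, ht2⟩, htmax⟩ : ∃ t, (t ≤ n - 8 ∧ S.In ω z (t + 1) t) ∧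
      ∀ t', t' ≤ n - 8 → S.In ω z (t' + 1) t' → t' ≤ t := by
    have hP : t₀ ≤ n - 8 ∧ S.In ω z (t₀ + 1) t₀ := ⟨by omega, ht₀'⟩
    refine ⟨Nat.findGreatest (fun t => t ≤ n - 8 ∧ S.In ω z (t + 1) t) (n - 8),
      Nat.findGreatest_spec (P := fun t => t ≤ n - 8 ∧ S.In ω z (t + 1) t) hP.1 hP,
      fun t' h1 h2 => Nat.le_findGreatest h1 ⟨h1, h2⟩⟩
  have htt₀ : t₀ ≤ t := htmax t₀ (by omega) ht₀'
  -- (*)
  obtain ⟨k1, hk1a, hk1b⟩ : ∃ k1, n - 1 ≤ l k1 ∧ l k1 ≤ T + 1 := by
    have hwin : S.In ω w (T + 2) (n - 1) := by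
      have h1 : S.In ω (z * (z⁻¹ * w)) (T + 2) (n - 1) :=
        In.mul hω hT2 hsmall (by omega) (by omega) (by omega) (by omega) (by omega)
      rwa [mul_inv_cancel_left] at h1
    obtain ⟨k, hk1, hk2⟩ := r6_exists_gap hl (i := n - 2) (by omega)
    by_contra hcon
    push Not at hcon
    have h3 := hcon (k + 1) (by omega)
    exact hw k (In.mono hω hwin (by omega) (by omega))
  -- (**)
  obtain ⟨k2, hk2a, hk2b⟩ : ∃ k2, t - 9 ≤ l k2 ∧ l k2 ≤ n + 5 := by
    have hzinv : S.In ω z⁻¹ (t + 3) (t - 4) := hn₃ t (by omega) ht2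
    have hwinv : S.In ω w⁻¹ (n + 4) (t - 5) := by
      have h1 : S.In ω ((z⁻¹ * w)⁻¹ * z⁻¹) (n + 4) (t - 5) :=
        In.mul hω hinv hzinv (by omega) (by omega) (by omega) (by omega) (by omega)
      rwa [show (z⁻¹ * w)⁻¹ * z⁻¹ = w⁻¹ by group] at h1
    obtain ⟨k, hk1, hk2⟩ := r6_exists_gap hl (i := t - 10) (by omega)
    refine ⟨k + 1, by omega, ?_⟩
    by_contra hcon
    have hkk : k₁ ≤ k := by
      by_contra hlt
      have : l (k + 1) ≤ l k₁ := hl.monotone (by omega)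
      omega
    exact hk₁ k hkk (n + 4) (by omega) (by omega) (In.mono hω hwinv le_rfl (by omega))
  have hA1 : A (l k1) = 0 := by
    refine hk₀ k1 ?_
    by_contra hlt
    have : l k1 ≤ l k₀ := hl.monotone (by omega)
    omega
  have hA2 : A (l k2) = 0 := by
    refine hk₀ k2 ?_
    by_contra hlt
    have : l k2 ≤ l k₀ := hl.monotone (by omega)
    omega
  -- six places do not fit
  have hfit : ∀ a a', A a = 0 → A a' = 0 → t - 9 ≤ a → a' ≤ max (T + 1) (n + 5) → ¬ a < a' := by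
    intro a a' ha ha' h1 h2 hlt
    obtain ⟨s, hs, hs0, hs5, hsm⟩ := hsix a a' ha ha' hlt
    have e01 := hs (show 0 < 1 by norm_num)
    have e12 := hs (show 1 < 2 by norm_num)
    have e23 := hs (show 2 < 3 by norm_num)
    have e34 := hs (show 3 < 4 by norm_num)
    have e45 := hs (show 4 < 5 by norm_num)
    have hJ0 : J 0 ≤ t - 9 := by omega
    have g01 := r6_gap_of_small hω hJ hgap hz (by omega) e01 (hsm 0 (by norm_num))
      (hsm 1 (by norm_num))
    have g12 := r6_gap_of_small hω hJ hgap hz (by omega) e12 (hsm 1 (by norm_num))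
      (hsm 2 (by norm_num))
    have g23 := r6_gap_of_small hω hJ hgap hz (by omega) e23 (hsm 2 (by norm_num))
      (hsm 3 (by norm_num))
    have g34 := r6_gap_of_small hω hJ hgap hz (by omega) e34 (hsm 3 (by norm_num))
      (hsm 4 (by norm_num))
    have h5T : s 5 < max (T + 1) (n + 5) := lt_of_lt_of_le hs5 h2
    have hc1 : ¬ s 1 ≤ n - 8 := by
      intro h
      have := htmax (s 1) h (hsm 1 (by norm_num))
      omega
    have hc2 : ¬ n + 2 ≤ s 3 := by
      intro h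
      have := hTmin (s 3) h (hsm 3 (by norm_num))
      rcases max_cases (T + 1) (n + 5) with hh | hh <;> omega
    omega
  have heq : l k1 = l k2 := by
    rcases lt_trichotomy (l k1) (l k2) with h | h | h
    · exact absurd h (hfit _ _ hA1 hA2 (by omega) (le_trans hk2b (le_max_right _ _)))
    · exact h
    · exact absurd h (hfit _ _ hA2 hA1 (by omega) (le_trans hk1b (le_max_left _ _)))
  exact ⟨l k1, hA1, by omega, by omega⟩

end pointwise

/-- The value read off from `w * e` at precision `n - 6`. -/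
private noncomputable def readOff (ω : Ult B) (w e : Γ) (n a : ℕ) : ℕ :=
  ((Encodable.decode (α := List ℕ) (S.lev ω (w * e) (n - 6) - 1)).getD []).getD a 0

/-- The set of possible values at `a`. -/
private noncomputable def readSet (ω : Ult B) (w : Γ) (a : ℕ) : Finset ℕ := by
  classical
  exact (Finset.Icc (a - 5) (a + 1)).biUnion
    (fun n => (S.E ω (n + 3)).image (fun e => S.readOff ω w e n a))

private theorem card_readSet (ω : Ult B) (w : Γ) (a : ℕ) :
    (S.readSet ω w a).card ≤ ∑ n ∈ Finset.Icc (a - 5) (a + 1), (S.E ω (n + 3)).card := by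
  classical
  exact Finset.card_biUnion_le.trans (Finset.sum_le_sum fun n _ => Finset.card_image_le)

private theorem mem_readSet {ω : Ult B} {w : Γ} {a m : ℕ} :
    m ∈ S.readSet ω w a ↔ ∃ n : ℕ, (a - 5 ≤ n ∧ n ≤ a + 1) ∧
      ∃ e : S.D, e.1 ∈ S.E ω (n + 3) ∧ S.readOff ω w e.1 n a = m := by
  classical
  unfold readSet
  rw [Finset.mem_biUnion]
  simp only [Finset.mem_Icc, Finset.mem_image]
  constructor
  · rintro ⟨n, hn, e, he, h⟩
    exact ⟨n, hn, ⟨e, S.E_sub ω _ e he⟩, he, h⟩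
  · rintro ⟨n, hn, e, he, h⟩
    exact ⟨n, hn, e.1, he, h⟩

private theorem meas_lev (g : Γ) (m k : ℕ) : MeasurableSet[genM B] {ω | S.lev ω g m = k} := by
  refine meas_ev _ (meas_or (meas_and (S.meas_In g k m)
    (meas_all fun j => meas_imp (meas_const (j < k)) (meas_not (S.meas_In g j m))))
    (meas_and (meas_const (k = 0)) (meas_all fun j => meas_not (S.meas_In g j m)))) fun ω => ?_
  change S.lev ω g m = k ↔ (S.In ω g k m ∧ ∀ j, j < k → ¬ S.In ω g j m) ∨
    (k = 0 ∧ ∀ j, ¬ S.In ω g j m)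
  constructor
  · intro h
    by_cases hex : ∃ k, S.In ω g k m
    · left
      subst h
      exact ⟨S.in_lev hex, fun j hj hj' => absurd (S.lev_le hj') (by omega)⟩
    · right
      push Not at hex
      refine ⟨?_, hex⟩
      rw [← h, lev]
      have : {k | S.In ω g k m} = ∅ := by
        ext j
        simp [hex j]
      rw [this, Nat.sInf_empty]
  · rintro (⟨h1, h2⟩ | ⟨h1, h2⟩)
    · apply le_antisymm (S.lev_le h1)
      by_contra hlt
      exact h2 _ (not_le.1 hlt) (S.in_lev ⟨k, h1⟩)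
    · rw [h1, lev]
      have : {k | S.In ω g k m} = ∅ := by
        ext j
        simp [h2 j]
      rw [this, Nat.sInf_empty]

private theorem meas_readSet (w : Γ) (a : ℕ) (T : Finset ℕ) :
    MeasurableSet[genM B] {ω | S.readSet ω w a = T} := by
  have : Countable S.D := S.D_ctbl.to_subtype
  refine meas_ev _ (meas_all fun m => meas_iff (meas_ex fun n => meas_and
    (meas_const (a - 5 ≤ n ∧ n ≤ a + 1)) (meas_ex fun e : S.D => meas_and (S.meas_E e.1 (n + 3))
    (meas_rel1 (f := fun ω => S.lev ω (w * e.1) (n - 6)) (fun i => S.meas_lev _ _ i)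
      (fun i => ((Encodable.decode (α := List ℕ) (i - 1)).getD []).getD a 0 = m))))
      (meas_const (m ∈ T))) fun ω => ?_
  change _ ↔ ∀ m, ((∃ n : ℕ, (a - 5 ≤ n ∧ n ≤ a + 1) ∧
      ∃ e : S.D, e.1 ∈ S.E ω (n + 3) ∧ S.readOff ω w e.1 n a = m) ↔ m ∈ T)
  rw [Finset.ext_iff]
  simp only [mem_readSet]

private theorem meas_cardE (j k : ℕ) : MeasurableSet[genM B] {ω | (S.E ω j).card = k} := by
  classical
  have : Countable S.D := S.D_ctbl.to_subtype
  -- the finite set as a finite set of elements of `D`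
  have h1 : ∀ T : Finset S.D, MeasurableSet[genM B]
      {ω | (S.E ω j).subtype (· ∈ S.D) = T} := by
    intro T
    refine meas_ev _ (meas_all fun e : S.D => meas_iff (S.meas_E e.1 j)
      (meas_const (e ∈ T))) fun ω => ?_
    change _ ↔ ∀ e : S.D, (e.1 ∈ S.E ω j ↔ e ∈ T)
    rw [Finset.ext_iff]
    simp only [Finset.mem_subtype]
  have h2 := meas_rel1 (m := genM B) h1 (fun T => T.card = k)
  refine meas_ev _ h2 fun ω => ?_
  change _ ↔ ((S.E ω j).subtype (· ∈ S.D)).card = k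
  rw [Finset.card_subtype, Finset.filter_true_of_mem (S.E_sub ω j)]

private theorem meas_InfS {s : Ult B → ℕ → ℕ} (hs : IsR s) :
    MeasurableSet[genM B] {ω | InfS (s ω)} := by
  refine meas_ev _ (meas_all fun i : ℕ => meas_all fun m : ℕ => meas_ex fun n : ℕ => meas_and
    (meas_const (m ≤ n)) (meas_real.1 hs (Nat.pair i n) 0)) fun ω => ?_
  change InfS (s ω) ↔ ∀ i m : ℕ, ∃ n, m ≤ n ∧ s ω (Nat.pair i n) = 0
  refine forall_congr' fun i => ?_
  rw [← Nat.frequently_atTop_iff_infinite, frequently_atTop]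

/-- R6: two-sided systems contradict `LProp`. -/
theorem not_twoSided (hL : LProp B) (S : RSys B c Γ) (hc : c ≠ ⊥) (hT : S.TwoSided) :
    False := by
  classical
  -- local choice
  obtain ⟨Op0, hOp0m, hOp0l, hOp0⟩ := exists_localChoice (B := B)
    (W := Γ × {J : Ult B → ℕ → ℕ // IsR J})
    (fun ω p p' => ω.V c → (p.1)⁻¹ * p'.1 ∈ S.Z ω ∧ p.2.1 ω = p'.2.1 ω)
    (by
      intro ι b w hb
      obtain ⟨z', hz'⟩ := S.mix ι b (fun i => (w i).1) hb
      obtain ⟨J', hJ', hJ''⟩ := r6_mixReal ι b (fun i => (w i).2.1) (fun i => (w i).2.2) hb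
      exact ⟨(z', ⟨J', hJ'⟩), fun i => Eventually.of_forall fun ω h1 h2 =>
        ⟨hz' i ω h1 h2, (hJ'' i ω h1).symm⟩⟩)
    (fun ω x s A p => ω.V c → InfS s → S.StepRel ω x A (p.2.1 ω) p.1 ∧
      ∀ i, {n | A n = 0 ∧ s (Nat.pair i n) = 0}.Infinite)
    (by
      rintro ω x y A p p' he h h1 h2
      obtain ⟨h3, h4⟩ := h h1 h2
      obtain ⟨h5, h6⟩ := he h1
      refine ⟨?_, h4⟩
      rw [← h6]
      exact StepRel.congr h1 h3 h5)
    (by
      intro F G hF hG
      obtain ⟨A, J, z, hA, hJ, h⟩ := S.exists_step F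
        (fun ω => if InfS (G ω) then G ω else 0) hF
        (Lav.meas_ite (meas_InfS hG) hG measurable_const) (by
          intro ω
          by_cases h : InfS (G ω)
          · rw [if_pos h]; exact h
          · rw [if_neg h]
            intro i
            simp only [Pi.zero_apply, ofPred_true]
            exact Set.infinite_univ)
      refine ⟨A, (z, ⟨J, hJ⟩), hA, ?_⟩
      filter_upwards [h] with ω h1 h2 h3
      have h4 := h1 h2
      rw [if_pos h3] at h4
      exact h4)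
  -- the function `N`
  set N : Ult B → ℕ → ℕ := fun ω a => ∑ n ∈ Finset.Icc (a - 5) (a + 1), (S.E ω (n + 3)).card
    with hN
  have hNm : IsR N := by
    let _ : MeasurableSpace (Ult B) := genM B
    refine measurable_pi_iff.2 fun a => ?_
    exact Finset.measurable_sum _ fun n _ => Lav.meas_of_eq fun k => S.meas_cardE _ k
  obtain ⟨W, l, ⟨x₀, hx₀⟩, hWm, hlm, hl, hΘ, -, h1, h2, -⟩ := hL
    (fun i F G => if i = 0 then Op0 F G else N)
    (by
      intro i F G hF hG
      split_ifs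
      · exact hOp0m F G hF hG
      · exact hNm)
    (by
      intro i F G F' G' hF hG hF' hG'
      split_ifs
      · exact hOp0l F G F' G' hF hG hF' hG'
      · exact Eventually.of_forall fun ω _ _ => rfl)
  have hNX : N ∈ W := by
    have := hΘ 1 x₀ hx₀ x₀ hx₀
    simpa using this
  obtain ⟨w, hw⟩ := S.big l hlm hl
  obtain ⟨x, hxX, hx⟩ := h2 N hNX
    (fun ω p => (S.readSet ω w (Nat.unpair p).1).toList.getD (Nat.unpair p).2 0)
    (meas_real.2 fun p k => meas_rel1 (S.meas_readSet w (Nat.unpair p).1)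
      (fun T => T.toList.getD (Nat.unpair p).2 0 = k))
  obtain ⟨s, hsX, hs⟩ := h1 x hxX
  obtain ⟨⟨z, J, hJm⟩, hRel⟩ := hOp0 x s (hWm x hxX) (hWm s hsX)
  -- take one ultrafilter
  obtain ⟨ω, hω, hall⟩ := AE.exists hc
    ((AE.of_ae (c := c) hx).and <| (AE.of_ae (c := c) hs).and <| (AE.of_ae (c := c) hRel).and <|
      hw.and <| (hT w).and <| (hT z⁻¹).and <| (hT (z⁻¹ * w)⁻¹).and <| (S.small z).and <|
        S.small (z⁻¹ * w))
  obtain ⟨hx, hs, hRel, hw, hTw, hTz, hTzw, hsz, hszw⟩ := hall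
  obtain ⟨hA, hAi⟩ := hRel hω hs.1
  have hAl : ∀ᶠ k in atTop, Op0 x s ω (l ω k) = 0 := by
    have := hs.2 (by simpa using hAi)
    simpa using this
  have hJ : StrictMono (J ω) := hA.2.1
  have hz := hA.2.2.2.1
  have hcode := hA.2.2.2.2.1
  have hw' : ∀ k, ¬ S.In ω w (l ω (k + 1)) (l ω k + 1) := hw
  have hclose := r6_exists_close hω w z hTw hTz hTzw hsz (l ω) (hl ω) hw' hA hAl
  obtain ⟨n₀, hn₀⟩ := eventually_atTop.1 hx
  obtain ⟨n₁, hn₁⟩ := eventually_atTop.1 hclose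
  obtain ⟨n₂, hn₂⟩ := eventually_atTop.1 (r6_inv_small hω hTzw)
  obtain ⟨n, hn, hsmall⟩ := hszw.forall_exists_of_atTop (n₀ + n₁ + n₂ + 100)
  obtain ⟨a, hAa, ha1, ha2⟩ := hn₁ n (by omega) hsmall
  obtain ⟨k, e, hk1, hk2, hk3, hk4, hk5⟩ := hcode a hAa
  obtain ⟨e', he', hu⟩ := hn₂ n (by omega) hsmall
  dsimp only at hk1 hk2 hk3 hk4 hk5 hz
  -- `z = (w * e') * u`
  set u := e'⁻¹ * (z⁻¹ * w)⁻¹ with hudef
  have hzw : w * e' * u = z := by rw [hudef]; group
  have hzw' : z * u⁻¹ = w * e' := by rw [hudef]; group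
  have hin : S.In ω (w * e') (J ω (k + 1) + 1) (n - 6) := by
    rw [← hzw']
    exact In.mul_V hω hk5 (S.inv_V ω hω _ _ hu) (by omega) (by omega)
  have hlev : S.lev ω (w * e') (n - 6) = J ω (k + 1) + 1 := by
    apply le_antisymm
    · exact S.lev_le hin
    · by_contra hlt
      have h3 : S.In ω (w * e') (J ω (k + 1)) (n - 6) :=
        In.mono hω (S.in_lev ⟨_, hin⟩) (by omega) le_rfl
      have h4 : S.In ω (w * e' * u) (J ω (k + 1)) (n - 7) :=
        In.mul_V hω h3 hu (by omega) (by omega)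
      rw [hzw] at h4
      exact hz k (In.mono hω h4 le_rfl (by omega))
  have hval : S.readOff ω w e' n a = x ω a := by
    unfold readOff
    rw [hlev, Nat.add_sub_cancel, hk4, Encodable.encodek, Option.getD_some]
    rw [List.getD_eq_getElem _ _ (by simp; omega)]
    simp
  have hmem : x ω a ∈ S.readSet ω w a := by
    rw [mem_readSet]
    exact ⟨n, ⟨by omega, by omega⟩, ⟨e', S.E_sub ω _ e' he'⟩, he', hval⟩
  obtain ⟨j, hj, hj'⟩ := List.getElem_of_mem (Finset.mem_toList.2 hmem)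
  refine hn₀ a (by omega) j ?_ ?_
  · rw [Finset.length_toList] at hj
    exact lt_of_lt_of_le hj (S.card_readSet ω w a)
  · show (S.readSet ω w (Nat.unpair (Nat.pair a j)).1).toList.getD
      (Nat.unpair (Nat.pair a j)).2 0 = x ω a
    rw [Nat.unpair_pair, List.getD_eq_getElem _ _ hj]
    exact hj'

end RSys

end Pool.Agent.MP_b00c97_gt.RN
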