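import Pool.Agent.MP_b00c97_gt.RN.Max
import Pool.Agent.MP_b00c97_gt.RN.N3
import Pool.Agent.MP_b00c97_gt.RN.N4
import Pool.Agent.MP_b00c97_gt.RN.N6

/-!
# MP_b00c97_gt, part RN, R7: there are no random window systems
-/

set_option autoImplicit false

open Set MeasureTheory Filter

namespace Pool.Agent.MP_b00c97_gt.RN

open Pool.Agent.BVM Pool.Agent.MP9096b7 Pool.Agent.MP_b00c97_gt.Lav

universe u v

variable {B : Type} [CompleteBooleanAlgebra B] {c : B} {Γ : Type u} [Group Γ]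

/-- The bad windows of `v` hit all the sets coded by `s`, at `ω`. -/
def RSys.Hit (S : RSys B c Γ) (ω : Ult B) (g s : ℕ → ℕ) (v : Γ) : Prop :=
  ∀ i, {a | S.Bad ω g v a ∧ s (Nat.pair i a) = 0}.Infinite

theorem RSys.meas_Hit (S : RSys B c Γ) {g s : Ult B → ℕ → ℕ} (hg : IsR g) (hs : IsR s) (v : Γ) :
    MeasurableSet[genM B] {ω | S.Hit ω (g ω) (s ω) v} := by
  have h1 : {ω | S.Hit ω (g ω) (s ω) v} =
      {ω | ∀ i N : ℕ, ∃ a : ℕ, N ≤ a ∧ S.Bad ω (g ω) v a ∧ s ω (Nat.pair i a) = 0} := by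
    ext ω
    simp only [RSys.Hit, mem_ofPred_eq]
    refine forall_congr' fun i => ?_
    rw [Set.infinite_iff_exists_gt]
    constructor
    · intro h N
      obtain ⟨a, ha, hN⟩ := h N
      exact ⟨a, hN.le, ha.1, ha.2⟩
    · intro h N
      obtain ⟨a, ha, h1, h2⟩ := h (N + 1)
      exact ⟨a, ⟨h1, h2⟩, ha⟩
  rw [h1]
  exact meas_all fun i => meas_all fun N => meas_ex fun a => meas_and (meas_const _)
    (meas_and (S.meas_Bad v hg a) (meas_real.1 hs _ _))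

theorem RSys.exists_maxHit (S : RSys B c Γ) (g s : Ult B → ℕ → ℕ) (hg : IsR g) (hs : IsR s) :
    ∃ v₀ : Γ, ∀ v, AE c fun ω => S.Hit ω (g ω) (s ω) v → S.Hit ω (g ω) (s ω) v₀ := by
  refine S.exists_max (fun v ω => S.Hit ω (g ω) (s ω) v) (fun v => S.meas_Hit hg hs v) ?_
  intro v v' ω hω hz h i
  refine (h i).mono fun a ha => ⟨Bad.congr hω ha.1 hz, ha.2⟩

/-- R7 (file RN/N7.lean): there are no random window systems. -/
theorem RSys.false (hL : LProp B) (S : RSys B c Γ) (hc : c ≠ ⊥) : False := by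
  classical
  have hmax : ∀ g s : Ult B → ℕ → ℕ, ∃ v₀ : Γ, IsR g → IsR s →
      ∀ v, AE c fun ω => S.Hit ω (g ω) (s ω) v → S.Hit ω (g ω) (s ω) v₀ := by
    intro g s
    by_cases h : IsR g ∧ IsR s
    · obtain ⟨v₀, hv₀⟩ := S.exists_maxHit g s h.1 h.2
      exact ⟨v₀, fun _ _ => hv₀⟩
    · exact ⟨1, fun h1 h2 => absurd ⟨h1, h2⟩ h⟩
  choose vm hvm using hmax
  have hm : ∀ g s, IsR g → IsR s →
      MeasurableSet[genM B] {ω | ω.V c ∧ ¬ S.Hit ω (g ω) (s ω) (vm g s)} := fun g s hg hs =>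
    meas_and (genM_V c) (meas_not (S.meas_Hit hg hs _))
  obtain ⟨g₀, s₀, hg₀, hs₀, hinf, hmx⟩ := exists_max_real
    (fun g s ω => ω.V c ∧ ¬ S.Hit ω (g ω) (s ω) (vm g s)) hm (by
      intro g s g' s' hg hs hg' hs'
      filter_upwards [hvm g s hg hs (vm g' s')] with ω h1 hgg hss hP
      refine ⟨hP.1, fun h2 => hP.2 (h1 hP.1 ?_)⟩
      rw [hgg, hss]
      exact h2) InfS (fun _ => 0) (by
      intro i
      simpa using Set.infinite_univ)
  obtain ⟨b, hb⟩ := exists_bv (hm g₀ s₀ hg₀ hs₀).compl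
  have hb' : ∀ᶠ ω in genN B, ω.V (b ⊓ c) ↔ ω.V c ∧ S.Hit ω (g₀ ω) (s₀ ω) (vm g₀ s₀) := by
    filter_upwards [hb] with ω h1
    rw [ω.inf', h1]
    simp only [mem_compl_iff, mem_ofPred_eq]
    tauto
  by_cases hb0 : b ⊓ c = ⊥
  · have hP : AE c fun ω => ¬ S.Hit ω (g₀ ω) (s₀ ω) (vm g₀ s₀) := by
      filter_upwards [hb'] with ω h1 h2 h3
      have h4 := h1.2 ⟨h2, h3⟩
      rw [hb0] at h4
      exact ω.bot h4
    obtain ⟨T, hT⟩ := S.exists_twoSided g₀ s₀ hg₀ hs₀ hinf (by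
      intro v
      filter_upwards [hP, hvm g₀ s₀ hg₀ hs₀ v] with ω h1 h2 h3
      by_contra h4
      push Not at h4
      exact h1 h3 (h2 h3 h4))
    exact T.not_twoSided hL hc hT
  · refine (S.restrict (inf_le_right : b ⊓ c ≤ c)).not_all_hitting hL hb0 ?_
    intro g s hg hs hi
    refine ⟨vm g s, ?_⟩
    filter_upwards [hb', hmx g s hg hs hi] with ω h1 h2 h3
    by_contra h4
    have h5 := h1.1 h3
    exact (h2 ⟨h5.1, h4⟩).2 h5.2

end Pool.Agent.MP_b00c97_gt.RN
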